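import Pool.Agent.J4H85.RP.Order

set_option autoImplicit false

/-! The final forms. -/

namespace Pool.Agent.J4H85.RP

open Finset Pool.Agent.H234RC Pool.Agent.TH953.RC Pool.Agent.Y395.RS Pool.Agent.Y395.RW

section

variable {V : Type} [Fintype V] [DecidableEq V]

theorem ed_sub_pairs (H : SimpleGraph V) : ed H ⊆ pairs V := by
  intro e
  induction e using Sym2.ind with
  | _ x y =>
    rw [mem_ed, mem_pairs]
    exact fun h => h.ne

theorem ed_gr_pairs (F : Finset (Sym2 V)) (hF : F ⊆ pairs V) : ed (gr F) = F := by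
  ext e
  induction e using Sym2.ind with
  | _ x y => rw [mem_ed, adj_pairs hF]

omit [DecidableEq V] in
theorem coe_ed (H : SimpleGraph V) : ((ed H : Finset (Sym2 V)) : Set (Sym2 V)) = H.edgeSet := by
  ext e
  induction e using Sym2.ind with
  | _ x y => rw [mem_coe, mem_ed, SimpleGraph.mem_edgeSet]

theorem ncard_edgeSet (H : SimpleGraph V) : H.edgeSet.ncard = (ed H).card := by
  rw [← coe_ed, Set.ncard_coe_finset]

theorem ncard_bad (m : ℕ) :
    {G : SimpleGraph V | G.edgeSet.ncard = m ∧ ¬ Reconstructible G}.ncard = bad V m := by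
  classical
  unfold bad
  have e : {G : SimpleGraph V | G.edgeSet.ncard = m ∧ ¬ Reconstructible G} =
      (((((pairs V).powersetCard m).filter (fun R => ¬ Reconstructible (gr R))).image gr :
        Finset (SimpleGraph V)) : Set (SimpleGraph V)) := by
    ext H
    simp only [Set.mem_ofPred_eq, coe_image, coe_filter, mem_powersetCard, Set.mem_image]
    constructor
    · rintro ⟨h1, h2⟩
      exact ⟨ed H, ⟨⟨ed_sub_pairs H, by rw [← ncard_edgeSet]; exact h1⟩, by
        rw [gr_ed]; exact h2⟩, gr_ed H⟩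
    · rintro ⟨F, ⟨⟨hF, hm⟩, hP⟩, rfl⟩
      refine ⟨?_, hP⟩
      rw [ncard_edgeSet, ed_gr_pairs F hF, hm]
  rw [e, Set.ncard_coe_finset, card_image_of_injOn]
  intro F hF F' hF' h
  have hF1 := (mem_powersetCard.1 (mem_filter.1 (mem_coe.1 hF)).1).1
  have hF2 := (mem_powersetCard.1 (mem_filter.1 (mem_coe.1 hF')).1).1
  rw [← ed_gr_pairs F hF1, ← ed_gr_pairs F' hF2, h]

end

/-- all numbers of edges -/
theorem fin_edges : ∃ c : ℝ, 0 < c ∧ ∃ n₀ : ℕ, ∀ n : ℕ, n₀ ≤ n → ∀ m : ℕ,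
    (({G : SimpleGraph (Fin n) | G.edgeSet.ncard = m ∧ ¬ Reconstructible G}.ncard : ℕ) : ℝ) ≤
      Real.exp (-(c * n)) * (((n.choose 2).choose m : ℕ) : ℝ) := by
  classical
  obtain ⟨c, hc, n₀, h⟩ := edges
  refine ⟨c, hc, n₀, fun n hn m => ?_⟩
  have hN : (pairs (Fin n)).card = n.choose 2 := by
    rw [card_pairs, Fintype.card_fin]
  rw [ncard_bad]
  by_cases hm : m ≤ (pairs (Fin n)).card
  · have h1 := h (Fin n) (by rw [Fintype.card_fin]; exact hn) m hm
    rw [hN, Fintype.card_fin] at h1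
    exact h1
  · have h1 : bad (Fin n) m = 0 := by
      unfold bad
      rw [card_eq_zero, filter_eq_empty_iff]
      intro R hR
      obtain ⟨h2, h3⟩ := mem_powersetCard.1 hR
      have := card_le_card h2
      omega
    rw [h1]
    push_cast
    positivity

/-- the random graph process -/
theorem fin_process : ∃ c : ℝ, 0 < c ∧ ∃ n₀ : ℕ, ∀ n : ℕ, n₀ ≤ n →
    (({σ : Fin (n.choose 2) ≃ {e : Sym2 (Fin n) // ¬ e.IsDiag} | ∃ m : ℕ,
      ¬ Reconstructible (SimpleGraph.fromEdgeSet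
        {e : Sym2 (Fin n) | ∃ i : Fin (n.choose 2), (i : ℕ) < m ∧ (σ i : Sym2 (Fin n)) = e})}.ncard
        : ℕ) : ℝ) ≤
      Real.exp (-(c * n)) * (((n.choose 2).factorial : ℕ) : ℝ) := by
  classical
  obtain ⟨c, hc, n₀, h⟩ := edges
  obtain ⟨n₁, hn₁⟩ := exists_nat_gt (48 / c ^ 3 + 4)
  have e1 : 0 < 48 / c ^ 3 := by positivity
  refine ⟨c / 2, by linarith, max n₀ n₁, fun n hn => ?_⟩
  have hn0 : n₀ ≤ n := (le_max_left _ _).trans hn
  have hn1 : n₁ ≤ n := (le_max_right _ _).trans hn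
  have hnR : (n₁ : ℝ) ≤ n := by exact_mod_cast hn1
  have hnpos : (0 : ℝ) < n := by linarith
  set N := n.choose 2 with hNdef
  have hN : (pairs (Fin n)).card = N := by
    rw [card_pairs, Fintype.card_fin]
  let E := {e : Sym2 (Fin n) // ¬ e.IsDiag}
  have hE : Fintype.card E = N := by
    have := Sym2.card_subtype_not_diag (α := Fin n)
    rw [Fintype.card_fin] at this
    exact this
  let P : Finset E → Prop := fun S =>
    ¬ Reconstructible (gr (S.map (Function.Embedding.subtype _)))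
  have hbad : ∀ m, m ≤ N → ((((univ : Finset E).powersetCard m).filter P).card : ℝ) ≤
      Real.exp (-(c * n)) * (N.choose m : ℝ) := by
    intro m hm
    have h1 := h (Fin n) (by rw [Fintype.card_fin]; exact hn0) m (by rw [hN]; exact hm)
    rw [hN, Fintype.card_fin] at h1
    refine le_trans ?_ h1
    unfold bad
    have h2 : (((univ : Finset E).powersetCard m).filter P).card ≤
        (((pairs (Fin n)).powersetCard m).filter (fun R => ¬ Reconstructible (gr R))).card := by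
      apply card_le_card_of_injOn (fun S => S.map (Function.Embedding.subtype _))
      · intro S hS
        obtain ⟨h3, h4⟩ := mem_filter.1 (mem_coe.1 hS)
        rw [mem_coe, mem_filter, mem_powersetCard, card_map]
        refine ⟨⟨?_, (mem_powersetCard.1 h3).2⟩, h4⟩
        intro e he
        obtain ⟨x, _, rfl⟩ := mem_map.1 he
        exact mem_filter.2 ⟨mem_univ _, x.2⟩
      · intro S _ S' _ hh
        exact map_injective _ hh
    exact_mod_cast h2
  have hmain := bad_ords hE P (Real.exp (-(c * n))) (fun m hm => by convert hbad m hm)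
  have hset : {σ : Fin N ≃ E | ∃ m : ℕ, ¬ Reconstructible (SimpleGraph.fromEdgeSet
      {e : Sym2 (Fin n) | ∃ i : Fin N, (i : ℕ) < m ∧ (σ i : Sym2 (Fin n)) = e})} ⊆
      ((univ.filter (fun σ : Fin N ≃ E => ∃ m, m ≤ N ∧ P (pre σ m)) : Finset (Fin N ≃ E)) :
        Set (Fin N ≃ E)) := by
    rintro σ ⟨m, hm⟩
    rw [mem_coe, mem_filter]
    refine ⟨mem_univ _, min m N, min_le_right _ _, ?_⟩
    have h1 : gr ((pre σ (min m N)).map (Function.Embedding.subtype _)) =
        SimpleGraph.fromEdgeSet {e : Sym2 (Fin n) | ∃ i : Fin N, (i : ℕ) < m ∧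
          (σ i : Sym2 (Fin n)) = e} := by
      unfold gr
      congr 1
      ext e
      rw [mem_coe, mem_map]
      constructor
      · rintro ⟨x, hx, rfl⟩
        rw [mem_pre] at hx
        exact ⟨σ.symm x, hx.trans_le (min_le_left _ _), by
          rw [Equiv.apply_symm_apply]; rfl⟩
      · rintro ⟨i, hi, rfl⟩
        refine ⟨σ i, ?_, rfl⟩
        rw [mem_pre, Equiv.symm_apply_apply]
        exact lt_min hi i.2
    show ¬ Reconstructible (gr ((pre σ (min m N)).map (Function.Embedding.subtype _)))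
    rw [h1]
    exact hm
  have h1 := Set.ncard_le_ncard hset (Finset.finite_toSet _)
  rw [Set.ncard_coe_finset] at h1
  have h2 : (({σ : Fin N ≃ E | ∃ m : ℕ, ¬ Reconstructible (SimpleGraph.fromEdgeSet
      {e : Sym2 (Fin n) | ∃ i : Fin N, (i : ℕ) < m ∧ (σ i : Sym2 (Fin n)) = e})}.ncard : ℕ) : ℝ) ≤
      ((univ.filter (fun σ : Fin N ≃ E => ∃ m, m ≤ N ∧ P (pre σ m))).card : ℝ) := by
    exact_mod_cast h1
  refine h2.trans (le_trans (le_of_eq (by congr)) (hmain.trans ?_))
  apply mul_le_mul_of_nonneg_right _ (Nat.cast_nonneg _)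
  have hNR : 2 * (N : ℝ) = n * (n - 1) := by
    have := two_card_pairs (V := Fin n)
    rw [hN, Fintype.card_fin] at this
    exact this
  have h6 : (N : ℝ) + 1 ≤ Real.exp (c / 2 * n) := by
    have h7 := Real.pow_div_factorial_le_exp (c / 2 * n) (by positivity) 3
    have h8 : ((3 : ℕ).factorial : ℝ) = 6 := by
      norm_num [Nat.factorial]
    rw [h8] at h7
    have h9 : (n : ℝ) ^ 2 ≤ (c / 2 * n) ^ 3 / 6 := by
      have h10 : 48 / c ^ 3 ≤ n := by linarith
      rw [div_le_iff₀ (by positivity)] at h10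
      have h11 : (c / 2 * (n : ℝ)) ^ 3 / 6 = (n * c ^ 3) * n ^ 2 / 48 := by ring
      rw [h11, le_div_iff₀ (by norm_num)]
      have h12 : (0 : ℝ) ≤ (n : ℝ) ^ 2 := by positivity
      nlinarith
    nlinarith
  calc ((N : ℝ) + 1) * Real.exp (-(c * n)) ≤ Real.exp (c / 2 * n) * Real.exp (-(c * n)) :=
        mul_le_mul_of_nonneg_right h6 (Real.exp_pos _).le
    _ = Real.exp (-(c / 2 * n)) := by
        rw [← Real.exp_add]
        congr 1
        ring

open Classical in
/-- perturbations by a given number of changes -/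
theorem fin_flips (δ B : ℝ) (hδ : 0 < δ) (hB : 0 ≤ B) : ∃ C : ℝ, 0 < C ∧ ∃ n₀ : ℕ,
    ∀ (V : Type) [Fintype V] (G D : SimpleGraph V) (Y : Finset V) (m : ℕ),
      n₀ ≤ Fintype.card V →
      (∀ x ∈ Y, δ * (Fintype.card V : ℝ) ≤ ((Y.filter (fun z => D.Adj x z)).card : ℝ)) →
      C * (Fintype.card V : ℝ) ≤ m →
      (m : ℝ) + C * Fintype.card V ≤ (D.edgeSet.ncard : ℝ) →
      (({H : SimpleGraph V | symmDiff G H ≤ D ∧ (symmDiff G H).edgeSet.ncard = m ∧
        ¬ Good δ H Y}.ncard : ℕ) : ℝ) ≤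
        Real.exp (-(B * Fintype.card V)) * ((D.edgeSet.ncard.choose m : ℕ) : ℝ) := by
  obtain ⟨C, hC, n₀, h⟩ := flips δ B hδ hB
  refine ⟨C, hC, n₀, ?_⟩
  intro V _ G D Y m hn hY hm1 hm2
  rw [ncard_edgeSet] at hm2 ⊢
  have h1 := h V hn Y (ed G) (ed D) (ed_sub_pairs G) (ed_sub_pairs D) (fun x hx => by
    have h2 := hY x hx
    have h3 : Y.filter (fun z => D.Adj x z) = Y.filter (fun z => s(x, z) ∈ ed D) := by
      ext z
      rw [mem_filter, mem_filter, mem_ed]
    rw [h3] at h2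
    convert h2) m hm1 hm2
  refine le_trans ?_ h1
  -- the graphs `H` and the sets `R`
  have hadj : ∀ H : SimpleGraph V, ∀ x y : V, (symmDiff G H).Adj x y ↔
      ((G.Adj x y ∧ ¬ H.Adj x y) ∨ (H.Adj x y ∧ ¬ G.Adj x y)) := by
    intro H x y
    rw [symmDiff_def, SimpleGraph.sup_adj, SimpleGraph.sdiff_adj, SimpleGraph.sdiff_adj]
  have hsd : ∀ H : SimpleGraph V, symmDiff (ed G) (ed (symmDiff G H)) = ed H := by
    intro H
    ext e
    induction e using Sym2.ind with
    | _ x y =>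
      rw [mem_symmDiff, mem_ed, mem_ed, mem_ed, hadj]
      tauto
  have hle : {H : SimpleGraph V | symmDiff G H ≤ D ∧ (symmDiff G H).edgeSet.ncard = m ∧
        ¬ Good δ H Y}.ncard ≤
      (((ed D).powersetCard m).filter
        (fun R => ¬ Good δ (gr (symmDiff (ed G) R)) Y)).card := by
    rw [← Set.ncard_coe_finset]
    apply Set.ncard_le_ncard_of_injOn (fun H => ed (symmDiff G H))
    · rintro H ⟨h2, h3, h4⟩
      rw [mem_coe, mem_filter, mem_powersetCard]
      refine ⟨⟨ed_mono h2, by rw [← ncard_edgeSet]; exact h3⟩, ?_⟩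
      rw [hsd, gr_ed]
      exact h4
    · intro H _ H' _ hh
      have hh' : ed (symmDiff G H) = ed (symmDiff G H') := hh
      have h2 := hsd H
      rw [hh', hsd H'] at h2
      rw [← gr_ed H, ← h2, gr_ed]
  have hle' : (({H : SimpleGraph V | symmDiff G H ≤ D ∧ (symmDiff G H).edgeSet.ncard = m ∧
        ¬ Good δ H Y}.ncard : ℕ) : ℝ) ≤ ((((ed D).powersetCard m).filter
        (fun R => ¬ Good δ (gr (symmDiff (ed G) R)) Y)).card : ℝ) := by
    exact_mod_cast hle
  convert hle'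

open Classical in
/-- independent edges -/
theorem fin_indep (δ B : ℝ) (hδ : 0 < δ) (hB : 0 ≤ B) : ∃ C : ℝ, 0 < C ∧ ∃ n₀ : ℕ,
    ∀ (V : Type) [Fintype V] (p : Sym2 V → ℝ) (Y : Finset V),
      n₀ ≤ Fintype.card V → (∀ e, 0 ≤ p e ∧ p e ≤ 1) →
      (∀ x ∈ Y, δ * (Fintype.card V : ℝ) ≤ ((Y.filter (fun z => z ≠ x ∧
        C / (Fintype.card V : ℝ) ≤ p s(x, z) ∧
        p s(x, z) ≤ 1 - C / (Fintype.card V : ℝ))).card : ℝ)) →
      ∑ H ∈ univ.filter (fun H : SimpleGraph V => ¬ Good δ H Y), prob p H ≤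
        Real.exp (-(B * Fintype.card V)) := by
  obtain ⟨C, hC, n₀, h⟩ := indep δ B hδ hB
  refine ⟨C, hC, n₀, ?_⟩
  intro V _ p Y hn hp hY
  have e0 : ∑ H ∈ univ.filter (fun H : SimpleGraph V => ¬ Good δ H Y), prob p H =
      pr p (pairs V) (fun F => ¬ Good δ (gr F) Y) := by
    convert sum_prob p (fun H => ¬ Good δ H Y)
  rw [e0]
  refine h V hn Y p hp (fun x hx => ?_)
  have h2 := hY x hx
  convert h2

end Pool.Agent.J4H85.RP
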