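import Pool.Agent.J4H85.RP.Prob

set_option autoImplicit false

/-! Random subsets: symmetric differences of independent random sets; random sets of a given
size. -/

namespace Pool.Agent.J4H85.RP

open Finset Pool.Agent.Y395.RW

section

variable {α : Type} [DecidableEq α]

/-- the expectation of `g` -/
noncomputable def ex (p : α → ℝ) (E : Finset α) (g : Finset α → ℝ) : ℝ :=
  ∑ F ∈ E.powerset, wt p E F * g F

theorem ex_congr {p : α → ℝ} {E : Finset α} {g h : Finset α → ℝ}
    (H : ∀ F, F ⊆ E → g F = h F) : ex p E g = ex p E h := by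
  unfold ex
  exact sum_congr rfl fun F hF => by rw [H F (mem_powerset.1 hF)]

theorem ex_comb {p : α → ℝ} {E : Finset α} (a b : ℝ) (g h : Finset α → ℝ) :
    ex p E (fun F => a * g F + b * h F) = a * ex p E g + b * ex p E h := by
  unfold ex
  rw [mul_sum, mul_sum, ← sum_add_distrib]
  exact sum_congr rfl fun F _ => by ring

theorem ex_insert (p : α → ℝ) (E : Finset α) (e : α) (he : e ∉ E) (g : Finset α → ℝ) :
    ex p (insert e E) g = (1 - p e) * ex p E g + p e * ex p E (fun F => g (insert e F)) := by
  unfold ex
  rw [powerset_insert, sum_union, sum_image, mul_sum, mul_sum]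
  · congr 1
    · apply sum_congr rfl
      intro F hF
      have hF' := mem_powerset.1 hF
      have heF : e ∉ F := fun h => he (hF' h)
      unfold wt
      rw [insert_sdiff_of_notMem _ heF, prod_insert (fun h => he (mem_sdiff.1 h).1)]
      ring
    · apply sum_congr rfl
      intro F hF
      have hF' := mem_powerset.1 hF
      have heF : e ∉ F := fun h => he (hF' h)
      unfold wt
      have h1 : insert e E \ insert e F = E \ F := by
        ext x
        simp only [mem_sdiff, mem_insert]
        constructor
        · rintro ⟨h1, h2⟩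
          push Not at h2
          rcases h1 with h1 | h1
          · exact absurd h1 h2.1
          · exact ⟨h1, h2.2⟩
        · rintro ⟨h1, h2⟩
          refine ⟨Or.inr h1, ?_⟩
          rintro (h | h)
          · rw [h] at h1
            exact he h1
          · exact h2 h
      rw [h1, prod_insert heF]
      ring
  · intro F hF F' hF' h
    have h1 : e ∉ F := fun h => he (mem_powerset.1 hF h)
    have h2 : e ∉ F' := fun h => he (mem_powerset.1 hF' h)
    rw [← erase_insert h1, ← erase_insert h2, h]
  · rw [disjoint_left]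
    intro F hF hF'
    obtain ⟨F', _, rfl⟩ := mem_image.1 hF'
    exact he (mem_powerset.1 hF (mem_insert_self _ _))

theorem symm_insert_left {e : α} {A B : Finset α} (hB : e ∉ B) :
    symmDiff (insert e A) B = insert e (symmDiff A B) := by
  ext x
  simp only [mem_symmDiff, mem_insert]
  by_cases hx : x = e
  · subst hx
    simp [hB]
  · simp [hx]

theorem symm_insert_right {e : α} {A B : Finset α} (hA : e ∉ A) :
    symmDiff A (insert e B) = insert e (symmDiff A B) := by
  rw [symmDiff_comm, symm_insert_left hA, symmDiff_comm]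

theorem symm_insert_both {e : α} {A B : Finset α} (hA : e ∉ A) (hB : e ∉ B) :
    symmDiff (insert e A) (insert e B) = symmDiff A B := by
  ext x
  simp only [mem_symmDiff, mem_insert]
  by_cases hx : x = e
  · subst hx
    simp [hA, hB]
  · simp [hx]

open Classical in
/-- the product law as the law of a symmetric difference of independent random sets -/
theorem conv (p : α → ℝ) (D : Finset α) (q : ℝ) (hq : q < 1 / 2) (E : Finset α) :
    ∀ g : Finset α → ℝ, ex p E g =
      ex (fun e => if e ∈ D then (p e - q) / (1 - 2 * q) else p e) E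
        (fun Γ => ex (fun _ => q) (E ∩ D) (fun R => g (symmDiff Γ R))) := by
  have hq' : (1 : ℝ) - 2 * q ≠ 0 := by
    have : 0 < 1 - 2 * q := by linarith
    exact this.ne'
  induction E using Finset.induction_on with
  | empty =>
    intro g
    unfold ex
    simp [wt]
  | insert e E he ih =>
    intro g
    rw [ex_insert p E e he, ex_insert _ E e he, ih g, ih (fun F => g (insert e F))]
    by_cases heD : e ∈ D
    · have hEe : e ∉ E ∩ D := fun h => he (mem_inter.1 h).1
      rw [insert_inter_of_mem heD]
      have e1 : ∀ Γ : Finset α, Γ ⊆ E →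
          ex (fun _ => q) (insert e (E ∩ D)) (fun R => g (symmDiff Γ R)) =
          (1 - q) * ex (fun _ => q) (E ∩ D) (fun R => g (symmDiff Γ R)) +
          q * ex (fun _ => q) (E ∩ D) (fun R => g (insert e (symmDiff Γ R))) := by
        intro Γ hΓ
        rw [ex_insert _ _ e hEe]
        congr 2
        apply ex_congr
        intro R hR
        rw [symm_insert_right (fun h => he (hΓ h))]
      have e2 : ∀ Γ : Finset α, Γ ⊆ E →
          ex (fun _ => q) (insert e (E ∩ D)) (fun R => g (symmDiff (insert e Γ) R)) =
          q * ex (fun _ => q) (E ∩ D) (fun R => g (symmDiff Γ R)) +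
          (1 - q) * ex (fun _ => q) (E ∩ D) (fun R => g (insert e (symmDiff Γ R))) := by
        intro Γ hΓ
        rw [ex_insert _ _ e hEe, add_comm]
        congr 2
        · apply ex_congr
          intro R hR
          rw [symm_insert_both (fun h => he (hΓ h)) (fun h => hEe (hR h))]
        · apply ex_congr
          intro R hR
          rw [symm_insert_left (fun h => hEe (hR h))]
      rw [ex_congr (p := fun e => if e ∈ D then (p e - q) / (1 - 2 * q) else p e)
          (g := fun Γ => ex (fun _ => q) (insert e (E ∩ D)) (fun R => g (symmDiff Γ R))) e1,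
        ex_congr (p := fun e => if e ∈ D then (p e - q) / (1 - 2 * q) else p e)
          (g := fun Γ => ex (fun _ => q) (insert e (E ∩ D))
            (fun R => g (symmDiff (insert e Γ) R))) e2, ex_comb, ex_comb, if_pos heD]
      have ht : (p e - q) / (1 - 2 * q) * (1 - 2 * q) = p e - q := div_mul_cancel₀ _ hq'
      have e3 : (1 - (p e - q) / (1 - 2 * q)) * (1 - q) + (p e - q) / (1 - 2 * q) * q =
          1 - p e := by
        linear_combination -ht
      have e4 : (1 - (p e - q) / (1 - 2 * q)) * q + (p e - q) / (1 - 2 * q) * (1 - q) =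
          p e := by
        linear_combination ht
      linear_combination
        (-(ex (fun e => if e ∈ D then (p e - q) / (1 - 2 * q) else p e) E
          (fun Γ => ex (fun _ => q) (E ∩ D) (fun R => g (symmDiff Γ R))))) * e3 -
        (ex (fun e => if e ∈ D then (p e - q) / (1 - 2 * q) else p e) E
          (fun Γ => ex (fun _ => q) (E ∩ D) (fun R => g (insert e (symmDiff Γ R))))) * e4
    · rw [insert_inter_of_notMem heD, if_neg heD]
      congr 2
      apply ex_congr
      intro Γ hΓ
      apply ex_congr
      intro R hR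
      rw [symm_insert_left (fun h => he (mem_inter.1 (hR h)).1)]

open Classical in
theorem pr_eq_ex (p : α → ℝ) (E : Finset α) (P : Finset α → Prop) :
    pr p E P = ex p E (fun F => if P F then 1 else 0) := by
  unfold pr ex
  rw [sum_filter]
  exact sum_congr rfl fun F _ => by by_cases h : P F <;> simp [h]

/-- a bound for the perturbations by random subsets of `D` with density `q` gives a bound for
arbitrary probabilities between `q` and `1 - q` on `D` -/
theorem pr_conv_le (p : α → ℝ) (E D : Finset α) (hD : D ⊆ E) (q : ℝ)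
    (hq : q < 1 / 2) (h0 : ∀ e, 0 ≤ p e) (h1 : ∀ e, p e ≤ 1)
    (hp : ∀ e ∈ D, q ≤ p e ∧ p e ≤ 1 - q) (P : Finset α → Prop) (ρ : ℝ)
    (h : ∀ Γ : Finset α, Γ ⊆ E → pr (fun _ => q) D (fun R => P (symmDiff Γ R)) ≤ ρ) :
    pr p E P ≤ ρ := by
  classical
  rw [pr_eq_ex, conv p D q hq E, inter_eq_right.2 hD]
  set γ : α → ℝ := fun e => if e ∈ D then (p e - q) / (1 - 2 * q) else p e with hγ
  have hq' : 0 < 1 - 2 * q := by linarith
  have g0 : ∀ e, 0 ≤ γ e := by
    intro e
    rw [hγ]
    dsimp only
    split_ifs with he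
    · exact div_nonneg (by linarith [(hp e he).1]) hq'.le
    · exact h0 e
  have g1 : ∀ e, γ e ≤ 1 := by
    intro e
    rw [hγ]
    dsimp only
    split_ifs with he
    · rw [div_le_one hq']
      linarith [(hp e he).2]
    · exact h1 e
  calc ex γ E (fun Γ => ex (fun _ => q) D (fun R => if P (symmDiff Γ R) then (1 : ℝ) else 0))
      ≤ ∑ Γ ∈ E.powerset, wt γ E Γ * ρ := by
        unfold ex
        apply sum_le_sum
        intro Γ hΓ
        apply mul_le_mul_of_nonneg_left _ (wt_nonneg g0 g1 E Γ)
        refine le_trans (le_of_eq ?_) (h Γ (mem_powerset.1 hΓ))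
        rw [pr_eq_ex]
        rfl
    _ = ρ := by
        rw [← sum_mul]
        have h2 := pr_true (p := γ) E
        unfold pr at h2
        rw [filter_true] at h2
        rw [h2, one_mul]

end

/-! ### sets of a given size -/

/-- the terms of the binomial distribution with mean `m` -/
def bt (N m k : ℕ) : ℕ := N.choose k * m ^ k * (N - m) ^ (N - k)

theorem bt_rel (N m k : ℕ) (hk : k < N) :
    bt N m (k + 1) * ((k + 1) * (N - m)) = bt N m k * ((N - k) * m) := by
  unfold bt
  have h1 : N.choose (k + 1) * (k + 1) = N.choose k * (N - k) := Nat.choose_succ_right_eq N k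
  have h2 : N - k = (N - (k + 1)) + 1 := by omega
  have h3 : (N - m) ^ (N - k) = (N - m) ^ (N - (k + 1)) * (N - m) := by
    rw [h2, pow_succ]
  calc N.choose (k + 1) * m ^ (k + 1) * (N - m) ^ (N - (k + 1)) * ((k + 1) * (N - m))
      = (N.choose (k + 1) * (k + 1)) * (m ^ k * m) * ((N - m) ^ (N - (k + 1)) * (N - m)) := by
        rw [pow_succ]
        ring
    _ = (N.choose k * (N - k)) * (m ^ k * m) * ((N - m) ^ (N - k)) := by rw [h1, h3]
    _ = N.choose k * m ^ k * (N - m) ^ (N - k) * ((N - k) * m) := by ring

theorem bt_up (N m k : ℕ) (hm : m ≤ N) (hk : k + 1 ≤ m) : bt N m k ≤ bt N m (k + 1) := by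
  rcases Nat.lt_or_ge m N with hmN | hmN
  · have h := bt_rel N m k (by omega)
    have hpos : 0 < (k + 1) * (N - m) := Nat.mul_pos (by omega) (by omega)
    have h2 : (k + 1) * (N - m) ≤ (N - k) * m := by
      obtain ⟨a, rfl⟩ := Nat.exists_eq_add_of_le hk
      obtain ⟨b, rfl⟩ := Nat.exists_eq_add_of_lt hmN
      have e1 : k + 1 + a + b + 1 - (k + 1 + a) = b + 1 := by omega
      have e2 : k + 1 + a + b + 1 - k = a + b + 2 := by omega
      rw [e1, e2]
      nlinarith
    by_contra hc
    push Not at hc
    have h3 : bt N m (k + 1) * ((k + 1) * (N - m)) < bt N m k * ((k + 1) * (N - m)) :=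
      Nat.mul_lt_mul_of_pos_right hc hpos
    have h4 : bt N m k * ((k + 1) * (N - m)) ≤ bt N m k * ((N - k) * m) :=
      Nat.mul_le_mul_left _ h2
    omega
  · have : m = N := le_antisymm hm hmN
    subst this
    unfold bt
    have h1 : m - k ≠ 0 := by omega
    rw [Nat.sub_self, zero_pow h1, mul_zero]
    exact Nat.zero_le _

theorem bt_down (N m k : ℕ) (hk : m ≤ k) (hkN : k < N) : bt N m (k + 1) ≤ bt N m k := by
  have h := bt_rel N m k hkN
  have hpos : 0 < (k + 1) * (N - m) := Nat.mul_pos (by omega) (by omega)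
  have h2 : (N - k) * m ≤ (k + 1) * (N - m) := by
    calc (N - k) * m ≤ (N - m) * (k + 1) := Nat.mul_le_mul (by omega) (by omega)
      _ = _ := mul_comm _ _
  by_contra hc
  push Not at hc
  have h3 : bt N m k * ((k + 1) * (N - m)) < bt N m (k + 1) * ((k + 1) * (N - m)) :=
    Nat.mul_lt_mul_of_pos_right hc hpos
  have h4 : bt N m k * ((N - k) * m) ≤ bt N m k * ((k + 1) * (N - m)) :=
    Nat.mul_le_mul_left _ h2
  omega

theorem bt_le (N m k : ℕ) (hm : m ≤ N) (hk : k ≤ N) : bt N m k ≤ bt N m m := by
  rcases Nat.le_total k m with h | h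
  · have key : ∀ j k : ℕ, k + j = m → bt N m k ≤ bt N m m := by
      intro j
      induction j with
      | zero =>
        intro k hk
        rw [show k = m by omega]
      | succ j ih =>
        intro k hk
        exact (bt_up N m k hm (by omega)).trans (ih (k + 1) (by omega))
    exact key (m - k) k (by omega)
  · obtain ⟨j, rfl⟩ := Nat.exists_eq_add_of_le h
    induction j with
    | zero => exact le_rfl
    | succ j ih => exact (bt_down N m (m + j) (by omega) (by omega)).trans (ih (by omega) (by omega))

theorem bt_sum (N m : ℕ) (hm : m ≤ N) : N ^ N ≤ (N + 1) * bt N m m := by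
  have h : (m + (N - m)) ^ N = ∑ k ∈ range (N + 1), m ^ k * (N - m) ^ (N - k) * N.choose k :=
    add_pow _ _ _
  rw [show m + (N - m) = N by omega] at h
  rw [h]
  calc ∑ k ∈ range (N + 1), m ^ k * (N - m) ^ (N - k) * N.choose k
      ≤ ∑ _k ∈ range (N + 1), bt N m m := by
        apply sum_le_sum
        intro k hk
        have : m ^ k * (N - m) ^ (N - k) * N.choose k = bt N m k := by
          unfold bt
          ring
        rw [this]
        exact bt_le N m k hm (by rw [mem_range] at hk; omega)
    _ = (N + 1) * bt N m m := by rw [sum_const, card_range, smul_eq_mul]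

/-- the mode of the binomial distribution -/
theorem mode (N m : ℕ) (hm : m ≤ N) :
    1 ≤ ((N : ℝ) + 1) * ((N.choose m : ℝ) * (((m : ℝ) / N) ^ m * (1 - (m : ℝ) / N) ^ (N - m))) := by
  rcases Nat.eq_zero_or_pos N with h0 | hN
  · subst h0
    have : m = 0 := by omega
    subst this
    simp
  have hN' : (0 : ℝ) < N := by exact_mod_cast hN
  have h1 := bt_sum N m hm
  unfold bt at h1
  have h2 : (N : ℝ) ^ N ≤ ((N : ℝ) + 1) * ((N.choose m : ℝ) * (m : ℝ) ^ m * ((N : ℝ) - m) ^ (N - m)) := by
    have h3 : ((N ^ N : ℕ) : ℝ) ≤ (((N + 1) * (N.choose m * m ^ m * (N - m) ^ (N - m)) : ℕ) : ℝ) := by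
      exact_mod_cast h1
    push_cast [Nat.cast_sub hm] at h3
    exact h3
  have h4 : 1 - (m : ℝ) / N = ((N : ℝ) - m) / N := by
    field_simp
  rw [h4, div_pow, div_pow]
  have h5 : (N : ℝ) ^ N = (N : ℝ) ^ m * (N : ℝ) ^ (N - m) := by
    rw [← pow_add]
    congr 1
    omega
  have h6 : ((N : ℝ) + 1) * ((N.choose m : ℝ) * ((m : ℝ) ^ m / (N : ℝ) ^ m *
      (((N : ℝ) - m) ^ (N - m) / (N : ℝ) ^ (N - m)))) =
      ((N : ℝ) + 1) * ((N.choose m : ℝ) * (m : ℝ) ^ m * ((N : ℝ) - m) ^ (N - m)) / (N : ℝ) ^ N := by
    rw [h5]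
    field_simp
  rw [h6, le_div_iff₀ (by positivity), one_mul]
  exact h2

open Classical in
/-- from the product law to the uniform law on the sets with `m` elements -/
theorem unif_le {α : Type} [DecidableEq α] (D : Finset α) (m : ℕ) (hm : m ≤ D.card)
    (P : Finset α → Prop) (ρ : ℝ)
    (h : pr (fun _ => (m : ℝ) / D.card) D P ≤ ρ) :
    (((D.powersetCard m).filter P).card : ℝ) ≤ ρ * (D.card + 1) * (D.card.choose m) := by
  set N := D.card with hN
  set p : ℝ := (m : ℝ) / N with hp
  have hp0 : 0 ≤ p := by positivity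
  have hp1 : p ≤ 1 := by
    rcases Nat.eq_zero_or_pos N with h0 | h0
    · rw [hp, h0]
      simp
    · rw [hp, div_le_one (by exact_mod_cast h0)]
      exact_mod_cast hm
  set w : ℝ := p ^ m * (1 - p) ^ (N - m) with hw
  have hw0 : 0 ≤ w := mul_nonneg (pow_nonneg hp0 _) (pow_nonneg (by linarith) _)
  have h1 : (((D.powersetCard m).filter P).card : ℝ) * w ≤ pr (fun _ => p) D P := by
    unfold pr
    rw [← nsmul_eq_mul, ← sum_const]
    calc ∑ _F ∈ (D.powersetCard m).filter P, w = ∑ F ∈ (D.powersetCard m).filter P,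
          wt (fun _ => p) D F := by
          apply sum_congr rfl
          intro F hF
          obtain ⟨h2, h3⟩ := mem_powersetCard.1 (mem_filter.1 hF).1
          rw [wt_const, h3, card_sdiff_of_subset h2, h3]
      _ ≤ _ := by
          apply sum_le_sum_of_subset_of_nonneg
          · intro F hF
            obtain ⟨h2, h3⟩ := mem_filter.1 hF
            rw [mem_filter, mem_powerset]
            exact ⟨(mem_powersetCard.1 h2).1, h3⟩
          · intro F _ _
            exact wt_nonneg (fun _ => hp0) (fun _ => hp1) D F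
  have h2 := mode N m hm
  rw [← hp] at h2
  have h3 : 0 ≤ (((D.powersetCard m).filter P).card : ℝ) := Nat.cast_nonneg _
  have h4 : (0 : ℝ) ≤ ((N : ℝ) + 1) * (N.choose m : ℝ) := by positivity
  calc (((D.powersetCard m).filter P).card : ℝ)
      = (((D.powersetCard m).filter P).card : ℝ) * 1 := (mul_one _).symm
    _ ≤ (((D.powersetCard m).filter P).card : ℝ) *
        (((N : ℝ) + 1) * ((N.choose m : ℝ) * w)) := mul_le_mul_of_nonneg_left h2 h3
    _ = ((((D.powersetCard m).filter P).card : ℝ) * w) * (((N : ℝ) + 1) * (N.choose m : ℝ)) := by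
        ring
    _ ≤ ρ * (((N : ℝ) + 1) * (N.choose m : ℝ)) :=
        mul_le_mul_of_nonneg_right (h1.trans h) h4
    _ = _ := by ring

end Pool.Agent.J4H85.RP
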