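import Pool.Agent.J4H85.RP.Det

set_option autoImplicit false

/-! The union bound. -/

namespace Pool.Agent.J4H85.RP

open Finset Pool.Agent.H234RC Pool.Agent.TH953.RC Pool.Agent.Y395.RS Pool.Agent.Y395.RW

section

variable {V : Type} [Fintype V] [DecidableEq V]

/-- one set `K` -/
theorem one_set (q : ℝ) (hq0 : 0 ≤ q) (hq1 : q ≤ 1) (Γ D : Finset (Sym2 V))
    (hD : D ⊆ pairs V) (K Z : Finset V) (s d : ℕ) (hK : s ≤ K.card)
    (hd : ∀ x ∈ K, d ≤ (Z.filter (fun z => s(x, z) ∈ D)).card) (L : ℝ)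
    (h0 : 0 ≤ q * d / 4 - 18) (hL : L ≤ s * (q * d / 4 - 18))
    (h5 : (Fintype.card V : ℝ) ^ 3 * q ^ 5 ≤ 1)
    (h5' : ((Fintype.card V : ℝ) ^ 3 * q ^ 5) ^ s ≤ Real.exp (-L)) :
    pr (fun _ => q) D (fun R => (R ∩ TT D K Z).card < 18 * K.card ∨
      ∃ g ∈ GG K, (∀ x ∈ K, (g x).1 ≠ x) ∧ Lk K Z g (symmDiff Γ R)) ≤ 4 * Real.exp (-L) := by
  classical
  have hp0 : ∀ e : Sym2 V, 0 ≤ (fun _ : Sym2 V => q) e := fun _ => hq0
  have hp1 : ∀ e : Sym2 V, (fun _ : Sym2 V => q) e ≤ 1 := fun _ => hq1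
  have hsK : (s : ℝ) ≤ K.card := by exact_mod_cast hK
  have hT : TT D K Z ⊆ D := filter_subset _ _
  -- few members
  have hA : pr (fun _ => q) D (fun R => (R ∩ TT D K Z).card < 18 * K.card) ≤
      Real.exp (-L) := by
    refine (lower_tail hq0 hq1 D (TT D K Z) hT (18 * K.card)).trans (Real.exp_le_exp.2 ?_)
    have h1 := card_TT D K Z d hd
    have h2 : (K.card : ℝ) * d ≤ 2 * ((TT D K Z).card : ℝ) := by exact_mod_cast h1
    have h3 : q * ((K.card : ℝ) * d) ≤ q * (2 * ((TT D K Z).card : ℝ)) :=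
      mul_le_mul_of_nonneg_left h2 hq0
    have h4 : (s : ℝ) * (q * d / 4 - 18) ≤ K.card * (q * d / 4 - 18) :=
      mul_le_mul_of_nonneg_right hsK h0
    push_cast
    nlinarith
  -- one map
  have hB : ∀ g ∈ GG K, pr (fun _ => q) D (fun R => (∀ x ∈ K, (g x).1 ≠ x) ∧
      Lk K Z g (symmDiff Γ R) ∧ 3 * (5 * K.card) ≤ (R ∩ SS D K Z g).card) ≤
      3 * (q ^ 5) ^ K.card := by
    intro g _
    by_cases hg : ∀ x ∈ K, (g x).1 ≠ x
    · have hfix : ∀ a ∈ SS D K Z g, Sym2.map (fun y => (g y).1) a ≠ a := fun a ha =>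
        ((mem_SS _ _ _ _ _).1 ha).2.2
      have h1 := link_prob (q := q) hq0 hq1 D (SS D K Z g) Γ (Sym2.map (fun y => (g y).1))
        (5 * K.card) (filter_subset _ _) hfix
      rw [pow_mul] at h1
      refine (pr_mono hp0 hp1 ?_).trans h1
      rintro R _ ⟨-, h2, h3⟩
      exact ⟨links D K Z g _ h2, h3⟩
    · refine (pr_mono hp0 hp1 (Q := fun _ => False) ?_).trans ?_
      · rintro R _ ⟨h1, -⟩
        exact hg h1
      · rw [pr_false]
        positivity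
  have hB' : pr (fun _ => q) D (fun R => ∃ g ∈ GG K, ((∀ x ∈ K, (g x).1 ≠ x) ∧
      Lk K Z g (symmDiff Γ R) ∧ 3 * (5 * K.card) ≤ (R ∩ SS D K Z g).card)) ≤
      3 * Real.exp (-L) := by
    refine (pr_ex hp0 hp1 _ _ _).trans ((sum_le_sum hB).trans ?_)
    rw [sum_const, card_GG, nsmul_eq_mul]
    push_cast
    have e1 : (((Fintype.card V : ℝ) ^ 3) ^ K.card) * (3 * (q ^ 5) ^ K.card) =
        3 * ((Fintype.card V : ℝ) ^ 3 * q ^ 5) ^ K.card := by
      rw [mul_pow]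
      ring
    rw [e1]
    apply mul_le_mul_of_nonneg_left _ (by norm_num)
    exact (pow_le_pow_of_le_one (by positivity) h5 hK).trans h5'
  refine (pr_mono hp0 hp1 (Q := fun R => (R ∩ TT D K Z).card < 18 * K.card ∨
    ∃ g ∈ GG K, ((∀ x ∈ K, (g x).1 ≠ x) ∧
      Lk K Z g (symmDiff Γ R) ∧ 3 * (5 * K.card) ≤ (R ∩ SS D K Z g).card)) ?_).trans
    ((pr_or hp0 hp1 _ _ _).trans (by linarith))
  rintro R _ h
  by_cases hR : (R ∩ TT D K Z).card < 18 * K.card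
  · exact Or.inl hR
  · right
    rcases h with h | ⟨g, hg, h1, h2⟩
    · exact absurd h hR
    · refine ⟨g, hg, h1, h2, ?_⟩
      have h3 := card_TT_SS D hD K Z g h1 R
      omega

/-- random perturbations have few moved vertices in `Y` -/
theorem core (q : ℝ) (hq0 : 0 ≤ q) (hq1 : q ≤ 1) (Γ D : Finset (Sym2 V)) (hΓ : Γ ⊆ pairs V)
    (hD : D ⊆ pairs V) (Y : Finset V) (s d : ℕ) (hs : 1 ≤ s)
    (hd : ∀ x ∈ Y, d + 2 * s ≤ (Y.filter (fun z => s(x, z) ∈ D)).card) (L : ℝ)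
    (h0 : 0 ≤ q * d / 4 - 18) (hL : L ≤ s * (q * d / 4 - 18))
    (h5 : (Fintype.card V : ℝ) ^ 3 * q ^ 5 ≤ 1)
    (h5' : ((Fintype.card V : ℝ) ^ 3 * q ^ 5) ^ s ≤ Real.exp (-L)) :
    pr (fun _ => q) D (fun R => ∃ M : Finset V,
      (∀ x ∈ M, x ∈ Y ∧ ¬ Rn (gr (symmDiff Γ R)) x) ∧ s ≤ M.card) ≤
      8 * 2 ^ (Fintype.card V) * Real.exp (-L) := by
  classical
  have hp0 : ∀ e : Sym2 V, 0 ≤ (fun _ : Sym2 V => q) e := fun _ => hq0
  have hp1 : ∀ e : Sym2 V, (fun _ : Sym2 V => q) e ≤ 1 := fun _ => hq1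
  let 𝒦 : Finset (Finset V) := Y.powerset.filter (fun K => s ≤ K.card)
  let B : Finset V → Finset V → Finset (Sym2 V) → Prop := fun K Z R =>
    (R ∩ TT D K Z).card < 18 * K.card ∨
      ∃ g ∈ GG K, (∀ x ∈ K, (g x).1 ≠ x) ∧ Lk K Z g (symmDiff Γ R)
  let P : Finset V → Finset (Sym2 V) → Prop := fun K R =>
    B K Y R ∨ (K.card ≤ 2 * s ∧ B K (Y \ K) R)
  have hdet : ∀ R, R ⊆ D → (∃ M : Finset V,
      (∀ x ∈ M, x ∈ Y ∧ ¬ Rn (gr (symmDiff Γ R)) x) ∧ s ≤ M.card) → ∃ K ∈ 𝒦, P K R := by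
    rintro R hR ⟨M, hM, hMs⟩
    have hF : symmDiff Γ R ⊆ pairs V := by
      intro e he
      rcases mem_symmDiff.1 he with h | h
      · exact hΓ h.1
      · exact hD (hR h.1)
    obtain ⟨K, hKY, hKs, g, hg, h1, h2⟩ := det (symmDiff Γ R) hF Y s hs M hM hMs
    refine ⟨K, mem_filter.2 ⟨mem_powerset.2 hKY, hKs⟩, ?_⟩
    rcases h2 with h2 | ⟨h2, h3⟩
    · exact Or.inl (Or.inr ⟨g, hg, h1, h2⟩)
    · exact Or.inr ⟨h2, Or.inr ⟨g, hg, h1, h3⟩⟩
  have hP : ∀ K ∈ 𝒦, pr (fun _ => q) D (P K) ≤ 8 * Real.exp (-L) := by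
    intro K hK
    obtain ⟨hKY, hKs⟩ := mem_filter.1 hK
    rw [mem_powerset] at hKY
    have h1 : pr (fun _ => q) D (B K Y) ≤ 4 * Real.exp (-L) := by
      refine one_set q hq0 hq1 Γ D hD K Y s d hKs (fun x hx => ?_) L h0 hL h5 h5'
      have := hd x (hKY hx)
      omega
    have h2 : pr (fun _ => q) D (fun R => K.card ≤ 2 * s ∧ B K (Y \ K) R) ≤
        4 * Real.exp (-L) := by
      by_cases hc : K.card ≤ 2 * s
      · refine (pr_mono hp0 hp1 (fun R _ h => h.2)).trans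
          (one_set q hq0 hq1 Γ D hD K (Y \ K) s d hKs (fun x hx => ?_) L h0 hL h5 h5')
        have h3 := hd x (hKY hx)
        have h4 : Y.filter (fun z => s(x, z) ∈ D) ⊆
            (Y \ K).filter (fun z => s(x, z) ∈ D) ∪ K := by
          intro z hz
          obtain ⟨hz1, hz2⟩ := mem_filter.1 hz
          rw [mem_union, mem_filter, mem_sdiff]
          by_cases hzK : z ∈ K
          · exact Or.inr hzK
          · exact Or.inl ⟨⟨hz1, hzK⟩, hz2⟩
        have h5 := (card_le_card h4).trans (card_union_le _ _)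
        omega
      · refine (pr_mono hp0 hp1 (Q := fun _ => False) fun R _ h => hc h.1).trans ?_
        rw [pr_false]
        positivity
    exact (pr_or hp0 hp1 _ _ _).trans (by linarith)
  refine (pr_mono hp0 hp1 hdet).trans ((pr_ex hp0 hp1 _ _ _).trans ((sum_le_sum hP).trans ?_))
  rw [sum_const, nsmul_eq_mul]
  have h1 : (𝒦.card : ℝ) ≤ 2 ^ (Fintype.card V) := by
    have h2 : 𝒦.card ≤ 2 ^ (Fintype.card V) := by
      refine (card_le_card (filter_subset _ _)).trans ?_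
      rw [card_powerset]
      exact Nat.pow_le_pow_right (by norm_num) (card_le_univ Y)
    exact_mod_cast h2
  have h2 := Real.exp_pos (-L)
  nlinarith

end

end Pool.Agent.J4H85.RP
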