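import Pool.Agent.J4H85.RP.Prob

set_option autoImplicit false

/-! Many vertices moved by near-automorphisms give a certificate. -/

namespace Pool.Agent.J4H85.RP

open Finset Pool.Agent.H234RC Pool.Agent.TH953.RC Pool.Agent.Y395.RS Pool.Agent.Y395.RW

section

variable {V : Type} [Fintype V] [DecidableEq V]

/-- the maps `g` which are trivial outside `K` -/
def GG (K : Finset V) : Finset (V → V × V × V) :=
  Fintype.piFinset (fun x => if x ∈ K then (univ : Finset (V × V × V)) else {(x, x, x)})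

theorem mem_GG (K : Finset V) (g : V → V × V × V) : g ∈ GG K ↔ ∀ x, x ∉ K → g x = (x, x, x) := by
  unfold GG
  rw [Fintype.mem_piFinset]
  constructor
  · intro h x hx
    have := h x
    rw [if_neg hx, mem_singleton] at this
    exact this
  · intro h x
    split_ifs with hx
    · exact mem_univ _
    · rw [mem_singleton]
      exact h x hx

theorem card_GG (K : Finset V) : (GG K).card = (Fintype.card V ^ 3) ^ K.card := by
  unfold GG
  rw [Fintype.card_piFinset]
  have h1 : ∀ x : V, (if x ∈ K then (univ : Finset (V × V × V)) else {(x, x, x)}).card =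
      if x ∈ K then Fintype.card V ^ 3 else 1 := by
    intro x
    split_ifs
    · rw [card_univ, Fintype.card_prod, Fintype.card_prod]
      ring
    · exact card_singleton _
  rw [prod_congr rfl (fun x _ => h1 x), prod_ite, prod_const, prod_const_one, mul_one]
  congr 1
  congr 1
  ext x
  simp

/-- the adjacencies of `x ∈ K` and `z ∈ Z` are preserved by the map `g`, up to two exceptions for
every `x` -/
def Lk (K Z : Finset V) (g : V → V × V × V) (F : Finset (Sym2 V)) : Prop :=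
  ∀ x ∈ K, ∀ z ∈ Z, z ≠ x → z ≠ (g x).2.1 → z ≠ (g x).2.2 →
    (s(x, z) ∈ F ↔ s((g x).1, (g z).1) ∈ F)

/-- many moved vertices in `Y` -/
theorem det (F : Finset (Sym2 V)) (hF : F ⊆ pairs V) (Y : Finset V) (s : ℕ) (hs : 1 ≤ s)
    (M : Finset V) (hM : ∀ x ∈ M, x ∈ Y ∧ ¬ Rn (gr F) x) (hMs : s ≤ M.card) :
    ∃ K : Finset V, K ⊆ Y ∧ s ≤ K.card ∧ ∃ g ∈ GG K, (∀ x ∈ K, (g x).1 ≠ x) ∧
      (Lk K Y g F ∨ (K.card ≤ 2 * s ∧ Lk K (Y \ K) g F)) := by
  classical
  have hadj : ∀ (φ : NAut V), IsNA (gr F) φ → ∀ x z : V, x ≠ φ.2.1 → x ≠ φ.2.2 → z ≠ φ.2.1 →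
      z ≠ φ.2.2 → (s(x, z) ∈ F ↔ s(φ.1 x, φ.1 z) ∈ F) := by
    intro φ hφ x z h1 h2 h3 h4
    rw [← adj_pairs hF, ← adj_pairs hF]
    exact (hφ x z h1 h2 h3 h4).symm
  let mY : NAut V → Finset V := fun φ => Y.filter (fun x => x ≠ φ.2.1 ∧ x ≠ φ.2.2 ∧ φ.1 x ≠ x)
  have mem_mY : ∀ φ x, x ∈ mY φ ↔ x ∈ Y ∧ x ≠ φ.2.1 ∧ x ≠ φ.2.2 ∧ φ.1 x ≠ x :=
    fun φ x => mem_filter
  by_cases hbig : ∃ φ : NAut V, IsNA (gr F) φ ∧ s ≤ (mY φ).card
  · obtain ⟨φ, hφ, hc⟩ := hbig
    let g : V → V × V × V := fun x => if x ∈ mY φ then (φ.1 x, φ.2.1, φ.2.2) else (x, x, x)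
    have g1 : ∀ x, x ∈ mY φ → g x = (φ.1 x, φ.2.1, φ.2.2) := fun x hx => if_pos hx
    have g2 : ∀ x, x ∉ mY φ → g x = (x, x, x) := fun x hx => if_neg hx
    refine ⟨mY φ, fun x hx => ((mem_mY φ x).1 hx).1, hc, g, (mem_GG _ _).2 g2, ?_, Or.inl ?_⟩
    · intro x hx
      rw [g1 x hx]
      exact ((mem_mY φ x).1 hx).2.2.2
    · intro x hx z hz hzx hz1 hz2
      have hx' := (mem_mY φ x).1 hx
      rw [g1 x hx] at hz1 hz2 ⊢
      have hgz : (g z).1 = φ.1 z := by
        by_cases hzm : z ∈ mY φ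
        · rw [g1 z hzm]
        · rw [g2 z hzm]
          by_contra hne
          exact hzm ((mem_mY φ z).2 ⟨hz, hz1, hz2, fun e => hne e.symm⟩)
      rw [hgz]
      exact hadj φ hφ x z hx'.2.1 hx'.2.2.1 hz1 hz2
  · push Not at hbig
    -- a near-automorphism for every vertex of `M`
    have hex : ∀ x : V, ∃ φ : NAut V, x ∈ M → (IsNA (gr F) φ ∧ x ∈ mY φ) := by
      intro x
      by_cases hx : x ∈ M
      · obtain ⟨h1, h2⟩ := hM x hx
        unfold Rn at h2
        push Not at h2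
        obtain ⟨φ, hφ, h3, h4, h5⟩ := h2
        exact ⟨φ, fun _ => ⟨hφ, (mem_mY φ x).2 ⟨h1, h3, h4, h5⟩⟩⟩
      · exact ⟨(1, x, x), fun h => absurd h hx⟩
    choose Φ hΦ using hex
    let U : Finset V → Finset V := fun X => X.biUnion (fun x => mY (Φ x))
    -- a minimal subset of `M` with a large union
    obtain ⟨X, hX, hmin⟩ := exists_min_image
      (M.powerset.filter (fun X => s ≤ (U X).card)) card
      ⟨M, mem_filter.2 ⟨mem_powerset.2 subset_rfl, hMs.trans (card_le_card fun x hx =>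
        mem_biUnion.2 ⟨x, hx, (hΦ x hx).2⟩)⟩⟩
    obtain ⟨hXM, hXs⟩ := mem_filter.1 hX
    rw [mem_powerset] at hXM
    have hXne : X.Nonempty := by
      rw [nonempty_iff_ne_empty]
      rintro rfl
      have : (U ∅).card = 0 := by
        show (Finset.biUnion ∅ _).card = 0
        rw [biUnion_empty, card_empty]
      omega
    obtain ⟨x0, hx0⟩ := hXne
    have hU2 : (U X).card ≤ 2 * s := by
      have h1 : (U (X.erase x0)).card < s := by
        by_contra hc
        push Not at hc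
        have h2 := hmin (X.erase x0) (mem_filter.2
          ⟨mem_powerset.2 ((erase_subset _ _).trans hXM), hc⟩)
        have h3 := card_erase_lt_of_mem hx0
        omega
      have h2 : U X ⊆ U (X.erase x0) ∪ mY (Φ x0) := by
        intro y hy
        obtain ⟨x, hx, hy⟩ := mem_biUnion.1 hy
        rw [mem_union]
        by_cases hxx : x = x0
        · right
          rw [← hxx]
          exact hy
        · left
          exact mem_biUnion.2 ⟨x, mem_erase.2 ⟨hxx, hx⟩, hy⟩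
      have h3 := (card_le_card h2).trans (card_union_le _ _)
      have h4 := hbig (Φ x0) (hΦ x0 (hXM hx0)).1
      omega
    have hch : ∀ y : V, ∃ x : V, y ∈ U X → (x ∈ X ∧ y ∈ mY (Φ x)) := by
      intro y
      by_cases hy : y ∈ U X
      · obtain ⟨x, hx, hy'⟩ := mem_biUnion.1 hy
        exact ⟨x, fun _ => ⟨hx, hy'⟩⟩
      · exact ⟨y, fun h => absurd h hy⟩
    choose c hc using hch
    let g : V → V × V × V := fun y =>
      if y ∈ U X then ((Φ (c y)).1 y, (Φ (c y)).2.1, (Φ (c y)).2.2) else (y, y, y)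
    have g1 : ∀ y, y ∈ U X → g y = ((Φ (c y)).1 y, (Φ (c y)).2.1, (Φ (c y)).2.2) :=
      fun y hy => if_pos hy
    have g2 : ∀ y, y ∉ U X → g y = (y, y, y) := fun y hy => if_neg hy
    refine ⟨U X, ?_, hXs, g, (mem_GG _ _).2 g2, ?_, Or.inr ⟨hU2, ?_⟩⟩
    · intro y hy
      exact ((mem_mY _ y).1 (hc y hy).2).1
    · intro y hy
      rw [g1 y hy]
      exact ((mem_mY _ y).1 (hc y hy).2).2.2.2
    · intro y hy z hz hzy hz1 hz2
      obtain ⟨hzY, hzU⟩ := mem_sdiff.1 hz
      rw [g1 y hy] at hz1 hz2 ⊢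
      rw [g2 z hzU]
      obtain ⟨hcX, hcy⟩ := hc y hy
      have hy' := (mem_mY _ y).1 hcy
      have hfix : (Φ (c y)).1 z = z := by
        by_contra hne
        exact hzU (mem_biUnion.2 ⟨c y, hcX, (mem_mY _ z).2 ⟨hzY, hz1, hz2, hne⟩⟩)
      have h := hadj (Φ (c y)) (hΦ _ (hXM hcX)).1 y z hy'.2.1 hy'.2.2.1 hz1 hz2
      rw [hfix] at h
      exact h

/-- the members of `D` with a vertex in `K` and a vertex in `Z` -/
def TT (D : Finset (Sym2 V)) (K Z : Finset V) : Finset (Sym2 V) :=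
  D.filter (fun e => ∃ x ∈ K, ∃ z ∈ Z, e = s(x, z))

theorem mem_TT (D : Finset (Sym2 V)) (K Z : Finset V) (e : Sym2 V) :
    e ∈ TT D K Z ↔ e ∈ D ∧ ∃ x ∈ K, ∃ z ∈ Z, e = s(x, z) := by
  unfold TT
  rw [mem_filter]

/-- the members of `TT D K Z` with a link -/
def SS (D : Finset (Sym2 V)) (K Z : Finset V) (g : V → V × V × V) : Finset (Sym2 V) :=
  D.filter (fun e => (∃ x ∈ K, ∃ z ∈ Z, e = s(x, z) ∧ z ≠ x ∧ z ≠ (g x).2.1 ∧ z ≠ (g x).2.2) ∧
    Sym2.map (fun y => (g y).1) e ≠ e)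

theorem mem_SS (D : Finset (Sym2 V)) (K Z : Finset V) (g : V → V × V × V) (e : Sym2 V) :
    e ∈ SS D K Z g ↔ e ∈ D ∧
      (∃ x ∈ K, ∃ z ∈ Z, e = s(x, z) ∧ z ≠ x ∧ z ≠ (g x).2.1 ∧ z ≠ (g x).2.2) ∧
      Sym2.map (fun y => (g y).1) e ≠ e := by
  unfold SS
  rw [mem_filter]

theorem links (D : Finset (Sym2 V)) (K Z : Finset V) (g : V → V × V × V) (F : Finset (Sym2 V))
    (h : Lk K Z g F) : ∀ a ∈ SS D K Z g, (a ∈ F ↔ Sym2.map (fun y => (g y).1) a ∈ F) := by
  intro a ha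
  obtain ⟨-, ⟨x, hx, z, hz, rfl, h1, h2, h3⟩, -⟩ := (mem_SS _ _ _ _ _).1 ha
  rw [Sym2.map_mk]
  exact h x hx z hz h1 h2 h3

/-- at most three pairs for every vertex of `K` have no link -/
theorem card_TT_SS (D : Finset (Sym2 V)) (hD : D ⊆ pairs V) (K Z : Finset V)
    (g : V → V × V × V) (hg : ∀ x ∈ K, (g x).1 ≠ x) (R : Finset (Sym2 V)) :
    (R ∩ TT D K Z).card ≤ (R ∩ SS D K Z g).card + 3 * K.card := by
  classical
  have hsub : R ∩ TT D K Z ⊆ (R ∩ SS D K Z g) ∪
      K.biUnion (fun x => {s(x, (g x).1), s(x, (g x).2.1), s(x, (g x).2.2)}) := by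
    intro e he
    obtain ⟨heR, heT⟩ := mem_inter.1 he
    obtain ⟨heD, x, hx, z, hz, rfl⟩ := (mem_TT _ _ _ _).1 heT
    rw [mem_union, mem_inter, mem_SS, mem_biUnion]
    by_contra hcon
    push Not at hcon
    obtain ⟨c1, c2⟩ := hcon
    have c3 := c2 x hx
    simp only [mem_insert, mem_singleton, not_or] at c3
    obtain ⟨d1, d2, d3⟩ := c3
    have hzx : z ≠ x := fun h => by
      have := (mem_pairs x z).1 (hD heD)
      exact this h.symm
    have c4 := c1 heR heD ⟨x, hx, z, hz, rfl, hzx, fun h => d2 (by rw [h]), fun h => d3 (by rw [h])⟩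
    rw [Sym2.map_mk] at c4
    rcases Sym2.eq_iff.1 c4 with ⟨h1, _⟩ | ⟨h1, _⟩
    · exact hg x hx h1
    · exact d1 (by rw [← h1])
  refine (card_le_card hsub).trans ((card_union_le _ _).trans (Nat.add_le_add_left ?_ _))
  refine card_biUnion_le.trans ?_
  calc ∑ x ∈ K, ({s(x, (g x).1), s(x, (g x).2.1), s(x, (g x).2.2)} : Finset (Sym2 V)).card
      ≤ ∑ _x ∈ K, 3 := sum_le_sum fun x _ => card_le_three
    _ = 3 * K.card := by rw [sum_const, smul_eq_mul, mul_comm]

/-- many pairs between `K` and `Z` -/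
theorem card_TT (D : Finset (Sym2 V)) (K Z : Finset V) (d : ℕ)
    (hd : ∀ x ∈ K, d ≤ (Z.filter (fun z => s(x, z) ∈ D)).card) :
    K.card * d ≤ 2 * (TT D K Z).card := by
  classical
  calc K.card * d = ∑ _x ∈ K, d := by rw [sum_const, smul_eq_mul]
    _ ≤ ∑ x ∈ K, ((TT D K Z).filter (fun e => x ∈ e)).card := by
        apply sum_le_sum
        intro x hx
        refine (hd x hx).trans ?_
        rw [← card_image_of_injective (Z.filter (fun z => s(x, z) ∈ D))
          (f := fun z => s(x, z)) (fun a b hab => Sym2.congr_right.1 hab)]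
        apply card_le_card
        intro e he
        obtain ⟨z, hz, rfl⟩ := mem_image.1 he
        obtain ⟨hz1, hz2⟩ := mem_filter.1 hz
        rw [mem_filter, mem_TT]
        exact ⟨⟨hz2, x, hx, z, hz1, rfl⟩, Sym2.mem_mk_left x z⟩
    _ = ∑ e ∈ TT D K Z, (K.filter (fun x => x ∈ e)).card := by
        simp only [card_filter]
        rw [sum_comm]
    _ ≤ ∑ _e ∈ TT D K Z, 2 := by
        apply sum_le_sum
        intro e _
        induction e using Sym2.ind with
        | _ a b =>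
          have hs : K.filter (fun x => x ∈ s(a, b)) ⊆ {a, b} := by
            intro x hx
            rw [mem_insert, mem_singleton]
            exact Sym2.mem_iff.1 (mem_filter.1 hx).2
          exact (card_le_card hs).trans card_le_two
    _ = 2 * (TT D K Z).card := by rw [sum_const, smul_eq_mul, mul_comm]

end

end Pool.Agent.J4H85.RP
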