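import Pool.Agent.J4H85.RP.Iso
import Pool.Agent.Y125.RS.STAR
import Pool.Agent.Y395.RS.Compl

set_option autoImplicit false

/-! Random graphs with a given number of edges. -/

namespace Pool.Agent.J4H85.RP

open Finset Pool.Agent.H234RC Pool.Agent.TH953.RC Pool.Agent.Y395.RS Pool.Agent.Y395.RW

section

variable {V : Type} [Fintype V] [DecidableEq V]

theorem card_pairs : (pairs V).card = (Fintype.card V).choose 2 := by
  rw [← Sym2.card_subtype_not_diag, Fintype.card_subtype]
  rfl

theorem two_card_pairs : 2 * ((pairs V).card : ℝ) = (Fintype.card V : ℝ) * (Fintype.card V - 1) := by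
  rw [card_pairs, Nat.cast_choose_two]
  ring

omit [DecidableEq V] in
/-- an isolated vertex -/
theorem recon_isolated (R : Finset (Sym2 V)) (h3 : 3 ≤ Fintype.card V) (x : V)
    (hx : ∀ y, s(x, y) ∉ R) : Reconstructible (gr R) := by
  refine Pool.Agent.Y125.RS.star V (gr R) x h3 (fun u hu => ?_)
  rw [gr_adj] at hu
  exact absurd hu.1 (hx u)

theorem gr_compl (R : Finset (Sym2 V)) : (gr R)ᶜ = gr (pairs V \ R) := by
  ext x y
  rw [SimpleGraph.compl_adj, gr_adj, gr_adj, mem_sdiff, mem_pairs]
  constructor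
  · rintro ⟨h1, h2⟩
    exact ⟨⟨h1, fun h => h2 ⟨h, h1⟩⟩, h1⟩
  · rintro ⟨⟨h1, h2⟩, _⟩
    exact ⟨h1, fun h => h2 h.1⟩

open Classical in
/-- the number of the nonreconstructible graphs with `m` edges -/
noncomputable def bad (V : Type) [Fintype V] [DecidableEq V] (m : ℕ) : ℕ :=
  (((pairs V).powersetCard m).filter (fun R => ¬ Reconstructible (gr R))).card

theorem bad_compl (m : ℕ) (hm : m ≤ (pairs V).card) :
    bad V m ≤ bad V ((pairs V).card - m) := by
  classical
  unfold bad
  apply card_le_card_of_injOn (fun R => pairs V \ R)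
  · intro R hR
    obtain ⟨h1, h2⟩ := mem_filter.1 (mem_coe.1 hR)
    obtain ⟨h3, h4⟩ := mem_powersetCard.1 h1
    rw [mem_coe, mem_filter, mem_powersetCard]
    refine ⟨⟨sdiff_subset, by rw [card_sdiff_of_subset h3, h4]⟩, fun h => h2 ?_⟩
    rw [← gr_compl R] at h
    have h5 := recon_compl _ h
    rwa [compl_compl] at h5
  · intro R hR R' hR' h
    obtain ⟨h1, _⟩ := mem_filter.1 (mem_coe.1 hR)
    obtain ⟨h1', _⟩ := mem_filter.1 (mem_coe.1 hR')
    have h3 := (mem_powersetCard.1 h1).1
    have h3' := (mem_powersetCard.1 h1').1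
    have h' : pairs V \ R = pairs V \ R' := h
    rw [← Finset.sdiff_sdiff_eq_self h3, ← Finset.sdiff_sdiff_eq_self h3', h']

end

/-- the main theorem for a given number of edges -/
theorem edges : ∃ c : ℝ, 0 < c ∧ ∃ n₀ : ℕ,
    ∀ (V : Type) [Fintype V] [DecidableEq V], n₀ ≤ Fintype.card V → ∀ m : ℕ,
      m ≤ (pairs V).card →
      (bad V m : ℝ) ≤ Real.exp (-(c * Fintype.card V)) * ((pairs V).card.choose m : ℝ) := by
  classical
  obtain ⟨C, hC0, n₁, hfl⟩ := flips (1 / 4) 1 (by norm_num) (by norm_num)
  obtain ⟨c, hc0, n₂, hsp⟩ := sparse (4 * C) (by linarith)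
  obtain ⟨n₃, hn₃⟩ := exists_nat_gt (4 + 48 / c ^ 3)
  have e1 : 0 < 48 / c ^ 3 := by positivity
  refine ⟨min 1 (c / 2), lt_min one_pos (by linarith), max (max n₁ n₂) n₃, ?_⟩
  intro V _ _ hn
  set n := Fintype.card V with hnn
  have hn1 : n₁ ≤ n := (le_max_left _ _).trans ((le_max_left _ _).trans hn)
  have hn2 : n₂ ≤ n := (le_max_right _ _).trans ((le_max_left _ _).trans hn)
  have hn3 : n₃ ≤ n := (le_max_right _ _).trans hn
  have hnR : (n₃ : ℝ) ≤ n := by exact_mod_cast hn3
  have hn0 : (0 : ℝ) < n := by linarith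
  have hn4 : (4 : ℝ) ≤ n := by linarith
  have h3 : 3 ≤ n := by
    have : (3 : ℝ) ≤ n := by linarith
    exact_mod_cast this
  set N := (pairs V).card with hN
  have hNR : 2 * (N : ℝ) = n * (n - 1) := two_card_pairs
  have hN0 : (0 : ℝ) < N := by nlinarith
  -- few edges
  have few : ∀ m : ℕ, m ≤ N → (m : ℝ) < C * n →
      (bad V m : ℝ) ≤ Real.exp (-(c / 2 * n)) * (N.choose m : ℝ) := by
    intro m hm hmC
    have hp : (m : ℝ) / N ≤ 4 * C / n := by
      rw [div_le_div_iff₀ hN0 hn0]
      have h1 : (m : ℝ) * n ≤ C * n * n := mul_le_mul_of_nonneg_right hmC.le hn0.le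
      have h2 : C * n * n ≤ 4 * C * N := by
        have h5 : 4 * C * (N : ℝ) = 2 * C * (n * (n - 1)) := by linear_combination (2 * C) * hNR
        rw [h5]
        have h6 : 0 ≤ C * n := by positivity
        nlinarith
      linarith
    have h1 := hsp V hn2 ((m : ℝ) / N) (by positivity) hp
    have h2 : pr (fun _ => (m : ℝ) / N) (pairs V) (fun R => ¬ Reconstructible (gr R)) ≤
        Real.exp (-(c * n)) := by
      refine le_trans (pr_mono (fun _ => by positivity) (fun _ => ?_) ?_) h1
      · rw [div_le_one hN0]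
        exact_mod_cast hm
      · intro R _ hR x
        by_contra hx
        push Not at hx
        exact hR (recon_isolated R h3 x hx)
    have h4 := unif_le (pairs V) m hm (fun R => ¬ Reconstructible (gr R)) _ h2
    have h5 : (bad V m : ℝ) ≤ Real.exp (-(c * n)) * ((N : ℝ) + 1) * (N.choose m : ℝ) := by
      refine le_trans (le_of_eq ?_) h4
      unfold bad
      congr
    refine h5.trans (mul_le_mul_of_nonneg_right ?_ (Nat.cast_nonneg _))
    have h6 : (N : ℝ) + 1 ≤ Real.exp (c / 2 * n) := by
      have h7 := Real.pow_div_factorial_le_exp (c / 2 * n) (by positivity) 3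
      have h8 : ((3 : ℕ).factorial : ℝ) = 6 := by
        norm_num [Nat.factorial]
      rw [h8] at h7
      have h9 : (n : ℝ) ^ 2 ≤ (c / 2 * n) ^ 3 / 6 := by
        have h10 : 48 / c ^ 3 ≤ n := by linarith
        rw [div_le_iff₀ (by positivity)] at h10
        have h11 : (c / 2 * (n : ℝ)) ^ 3 / 6 = (n * c ^ 3) * n ^ 2 / 48 := by ring
        rw [h11, le_div_iff₀ (by norm_num)]
        have h12 : (0 : ℝ) ≤ (n : ℝ) ^ 2 := by positivity
        nlinarith
      nlinarith
    calc Real.exp (-(c * n)) * ((N : ℝ) + 1) ≤ Real.exp (-(c * n)) * Real.exp (c / 2 * n) :=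
          mul_le_mul_of_nonneg_left h6 (Real.exp_pos _).le
      _ = Real.exp (-(c / 2 * n)) := by
          rw [← Real.exp_add]
          congr 1
          ring
  have hmin1 : Real.exp (-(c / 2 * n)) ≤ Real.exp (-(min 1 (c / 2) * n)) := by
    apply Real.exp_le_exp.2
    have := mul_le_mul_of_nonneg_right (min_le_right 1 (c / 2)) hn0.le
    linarith
  have hmin2 : Real.exp (-(1 * (n : ℝ))) ≤ Real.exp (-(min 1 (c / 2) * n)) := by
    apply Real.exp_le_exp.2
    have := mul_le_mul_of_nonneg_right (min_le_left 1 (c / 2)) hn0.le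
    linarith
  intro m hm
  have hch : (0 : ℝ) ≤ (N.choose m : ℝ) := Nat.cast_nonneg _
  by_cases h1 : (m : ℝ) < C * n
  · exact (few m hm h1).trans (mul_le_mul_of_nonneg_right hmin1 hch)
  · push Not at h1
    by_cases h2 : (m : ℝ) + C * n ≤ N
    · -- many edges and many nonedges
      have h4 := hfl V hn1 univ ∅ (pairs V) (empty_subset _) subset_rfl (fun x _ => by
        have h5 : (univ.filter (fun z => s(x, z) ∈ pairs V)) = univ.erase x := by
          ext z
          rw [mem_filter, mem_pairs, mem_erase]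
          constructor
          · rintro ⟨h, h'⟩
            exact ⟨h'.symm, h⟩
          · rintro ⟨h, h'⟩
            exact ⟨h', h.symm⟩
        rw [h5, card_erase_of_mem (mem_univ x), card_univ, Nat.cast_sub (by omega)]
        push_cast
        linarith) m h1 h2
      refine le_trans ?_ (h4.trans (mul_le_mul_of_nonneg_right hmin2 hch))
      unfold bad
      have h5 : ((pairs V).powersetCard m).filter (fun R => ¬ Reconstructible (gr R)) ⊆
          ((pairs V).powersetCard m).filter
            (fun R => ¬ Good (1 / 4) (gr (symmDiff ∅ R)) univ) := by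
        intro R hR
        obtain ⟨h6, h7⟩ := mem_filter.1 hR
        rw [mem_filter]
        refine ⟨h6, fun h => h7 ?_⟩
        have h8 : symmDiff ∅ R = R := bot_symmDiff R
        rw [h8] at h
        apply h.2
        rw [card_univ, ← hnn]
        linarith
      have h6 := card_le_card h5
      have h7 : ((((pairs V).powersetCard m).filter
          (fun R => ¬ Reconstructible (gr R))).card : ℝ) ≤ ((((pairs V).powersetCard m).filter
            (fun R => ¬ Good (1 / 4) (gr (symmDiff ∅ R)) univ)).card : ℝ) := by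
        exact_mod_cast h6
      convert h7
    · -- few nonedges
      push Not at h2
      have h4 : ((N - m : ℕ) : ℝ) < C * n := by
        rw [Nat.cast_sub hm]
        linarith
      have h5 := few (N - m) (Nat.sub_le _ _) h4
      rw [Nat.choose_symm hm] at h5
      have h6 : (bad V m : ℝ) ≤ bad V (N - m) := by exact_mod_cast bad_compl m hm
      exact h6.trans (h5.trans (mul_le_mul_of_nonneg_right hmin1 hch))

end Pool.Agent.J4H85.RP
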