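import Pool.Agent.J4H85.RP.Fin

set_option autoImplicit false

/-! Random spanning subgraphs of a dense graph with a given number of edges. -/

namespace Pool.Agent.J4H85.RP

open Finset Pool.Agent.H234RC Pool.Agent.TH953.RC Pool.Agent.Y395.RS Pool.Agent.Y395.RW

/-- the trace of a random set on a subset -/
theorem pr_trace {α : Type} [DecidableEq α] (p : α → ℝ) (E T : Finset α) (hT : T ⊆ E)
    (P : Finset α → Prop) : pr p E (fun R => P (R ∩ T)) = pr p T P := by
  classical
  rw [pr_split E T hT]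
  have h1 : ∀ F0 ∈ (E \ T).powerset, wt p (E \ T) F0 *
      pr p T (fun A => P ((F0 ∪ A) ∩ T)) = wt p (E \ T) F0 * pr p T P := by
    intro F0 hF0
    congr 1
    unfold pr
    apply sum_congr _ (fun _ _ => rfl)
    apply filter_congr
    intro A hA
    have h2 : (F0 ∪ A) ∩ T = A := by
      ext x
      rw [mem_inter, mem_union]
      constructor
      · rintro ⟨h | h, hx⟩
        · exact absurd hx (mem_sdiff.1 (mem_powerset.1 hF0 h)).2
        · exact h
      · intro h
        exact ⟨Or.inr h, mem_powerset.1 hA h⟩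
    show P ((F0 ∪ A) ∩ T) ↔ P A
    rw [h2]
  rw [sum_congr rfl h1, ← sum_mul]
  have h3 := pr_true (p := p) (E \ T)
  unfold pr at h3
  rw [filter_true] at h3
  rw [h3, one_mul]

open Classical in
/-- the number of the nonreconstructible sets of `m` members of `D` -/
noncomputable def badD {V : Type} [Fintype V] [DecidableEq V] (D : Finset (Sym2 V)) (m : ℕ) : ℕ :=
  ((D.powersetCard m).filter (fun R => ¬ Reconstructible (gr R))).card

theorem host (δ : ℝ) (hδ : 0 < δ) : ∃ C : ℝ, 0 < C ∧ ∃ c : ℝ, 0 < c ∧ ∃ n₀ : ℕ,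
    ∀ (V : Type) [Fintype V] [DecidableEq V], n₀ ≤ Fintype.card V →
      ∀ D : Finset (Sym2 V), D ⊆ pairs V →
      (∀ x : V, δ * (Fintype.card V : ℝ) ≤ ((univ.filter (fun z => s(x, z) ∈ D)).card : ℝ)) →
      ∀ m : ℕ, (m : ℝ) + C * (Fintype.card V : ℝ) ≤ D.card →
      (badD D m : ℝ) ≤ Real.exp (-(c * Fintype.card V)) * (D.card.choose m : ℝ) := by
  classical
  set δ' : ℝ := min δ (1 / 4) with hδ'
  have hδ'0 : 0 < δ' := lt_min hδ (by norm_num)
  obtain ⟨C, hC0, n₁, hfl⟩ := flips δ' 1 hδ'0 (by norm_num)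
  obtain ⟨c, hc0, n₂, hsp⟩ := sparse (2 * C / δ) (by positivity)
  obtain ⟨n₃, hn₃⟩ := exists_nat_gt (4 + 48 / c ^ 3)
  have e1 : 0 < 48 / c ^ 3 := by positivity
  refine ⟨C, hC0, min 1 (c / 2), lt_min one_pos (by linarith), max (max n₁ n₂) n₃, ?_⟩
  intro V _ _ hn D hD hdeg m hm
  set n := Fintype.card V with hnn
  have hn1 : n₁ ≤ n := (le_max_left _ _).trans ((le_max_left _ _).trans hn)
  have hn2 : n₂ ≤ n := (le_max_right _ _).trans ((le_max_left _ _).trans hn)
  have hn3 : n₃ ≤ n := (le_max_right _ _).trans hn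
  have hnR : (n₃ : ℝ) ≤ n := by exact_mod_cast hn3
  have hn0 : (0 : ℝ) < n := by linarith
  have hn4 : (4 : ℝ) ≤ n := by linarith
  have h3 : 3 ≤ n := by
    have : (3 : ℝ) ≤ n := by linarith
    exact_mod_cast this
  have hch : (0 : ℝ) ≤ (D.card.choose m : ℝ) := Nat.cast_nonneg _
  have hmin1 : Real.exp (-(c / 2 * n)) ≤ Real.exp (-(min 1 (c / 2) * n)) := by
    apply Real.exp_le_exp.2
    have := mul_le_mul_of_nonneg_right (min_le_right 1 (c / 2)) hn0.le
    linarith
  have hmin2 : Real.exp (-(1 * (n : ℝ))) ≤ Real.exp (-(min 1 (c / 2) * n)) := by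
    apply Real.exp_le_exp.2
    have := mul_le_mul_of_nonneg_right (min_le_left 1 (c / 2)) hn0.le
    linarith
  -- the number of the pairs
  have hDn : (D.card : ℝ) ≤ (n : ℝ) ^ 2 := by
    have h1 := card_le_card hD
    have h2 := two_card_pairs (V := V)
    have h4 : (D.card : ℝ) ≤ ((pairs V).card : ℝ) := by exact_mod_cast h1
    nlinarith
  have hDl : δ * (n : ℝ) ^ 2 ≤ 2 * D.card := by
    set d : ℕ := ⌈δ * n⌉₊ with hd
    have h1 : δ * n ≤ d := Nat.le_ceil _
    have h2 := card_TT D univ univ d (fun x _ => Nat.ceil_le.2 (hdeg x))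
    have h4 : (TT D univ univ).card ≤ D.card := card_le_card (filter_subset _ _)
    rw [card_univ] at h2
    have h5 : (n : ℝ) * d ≤ 2 * D.card := by
      have : n * d ≤ 2 * D.card := h2.trans (Nat.mul_le_mul_left 2 h4)
      exact_mod_cast this
    nlinarith
  have hDpos : (0 : ℝ) < D.card := by
    have : 0 < δ * (n : ℝ) ^ 2 := by positivity
    linarith
  by_cases h1 : (m : ℝ) < C * n
  · -- few edges
    have hm' : m ≤ D.card := by
      have h2 : 0 < C * (n : ℝ) := by positivity
      have : (m : ℝ) ≤ D.card := by linarith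
      exact_mod_cast this
    have hp : (m : ℝ) / D.card ≤ 2 * C / δ / n := by
      rw [div_div, div_le_div_iff₀ hDpos (by positivity)]
      have h2 : (m : ℝ) * (δ * n) ≤ C * n * (δ * n) :=
        mul_le_mul_of_nonneg_right h1.le (by positivity)
      have h4 : C * n * (δ * n) = C * (δ * (n : ℝ) ^ 2) := by ring
      have h5 : C * (δ * (n : ℝ) ^ 2) ≤ C * (2 * D.card) :=
        mul_le_mul_of_nonneg_left hDl hC0.le
      linarith
    have h2 := hsp V hn2 ((m : ℝ) / D.card) (by positivity) hp
    have hq1 : (m : ℝ) / D.card ≤ 1 := by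
      rw [div_le_one hDpos]
      exact_mod_cast hm'
    have h4 : pr (fun _ => (m : ℝ) / D.card) D (fun R => ¬ Reconstructible (gr R)) ≤
        Real.exp (-(c * n)) := by
      rw [← pr_trace _ (pairs V) D hD]
      refine le_trans (pr_mono (fun _ => by positivity) (fun _ => hq1) ?_) h2
      intro R _ hR x
      by_contra hx
      push Not at hx
      exact hR (recon_isolated (R ∩ D) h3 x (fun y hy => hx y (mem_inter.1 hy).1))
    have h5 := unif_le D m hm' (fun R => ¬ Reconstructible (gr R)) _ h4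
    have h6 : (badD D m : ℝ) ≤ Real.exp (-(c * n)) * ((D.card : ℝ) + 1) *
        (D.card.choose m : ℝ) := by
      refine le_trans (le_of_eq ?_) h5
      unfold badD
      congr
    refine h6.trans (mul_le_mul_of_nonneg_right (le_trans ?_ hmin1) hch)
    have h7 : (D.card : ℝ) + 1 ≤ Real.exp (c / 2 * n) := by
      have h7 := Real.pow_div_factorial_le_exp (c / 2 * n) (by positivity) 3
      have h8 : ((3 : ℕ).factorial : ℝ) = 6 := by
        norm_num [Nat.factorial]
      rw [h8] at h7
      have h9 : (n : ℝ) ^ 2 ≤ (c / 2 * n) ^ 3 / 6 := by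
        have h10 : 48 / c ^ 3 ≤ n := by linarith
        rw [div_le_iff₀ (by positivity)] at h10
        have h11 : (c / 2 * (n : ℝ)) ^ 3 / 6 = (n * c ^ 3) * n ^ 2 / 48 := by ring
        rw [h11, le_div_iff₀ (by norm_num)]
        have h12 : (0 : ℝ) ≤ (n : ℝ) ^ 2 := by positivity
        nlinarith
      have h13 : (D.card : ℝ) + 1 ≤ (n : ℝ) ^ 2 := by
        have h1 := card_le_card hD
        have h2 := two_card_pairs (V := V)
        have h4 : (D.card : ℝ) ≤ ((pairs V).card : ℝ) := by exact_mod_cast h1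
        nlinarith
      linarith
    calc Real.exp (-(c * n)) * ((D.card : ℝ) + 1) ≤ Real.exp (-(c * n)) * Real.exp (c / 2 * n) :=
          mul_le_mul_of_nonneg_left h7 (Real.exp_pos _).le
      _ = Real.exp (-(c / 2 * n)) := by
          rw [← Real.exp_add]
          congr 1
          ring
  · push Not at h1
    have h4 := hfl V hn1 univ ∅ D (empty_subset _) hD (fun x _ => by
      refine le_trans ?_ (hdeg x)
      exact mul_le_mul_of_nonneg_right (min_le_left _ _) hn0.le) m h1 hm
    refine le_trans ?_ (h4.trans (mul_le_mul_of_nonneg_right hmin2 hch))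
    unfold badD
    have h5 : (D.powersetCard m).filter (fun R => ¬ Reconstructible (gr R)) ⊆
        (D.powersetCard m).filter
          (fun R => ¬ Good δ' (gr (symmDiff ∅ R)) univ) := by
      intro R hR
      obtain ⟨h6, h7⟩ := mem_filter.1 hR
      rw [mem_filter]
      refine ⟨h6, fun h => h7 ?_⟩
      have h8 : symmDiff ∅ R = R := bot_symmDiff R
      rw [h8] at h
      apply h.2
      rw [card_univ, ← hnn]
      have h9 : δ' ≤ 1 / 4 := min_le_right _ _
      nlinarith
    have h6 := card_le_card h5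
    have h7 : (((D.powersetCard m).filter
        (fun R => ¬ Reconstructible (gr R))).card : ℝ) ≤ (((D.powersetCard m).filter
          (fun R => ¬ Good δ' (gr (symmDiff ∅ R)) univ)).card : ℝ) := by
      exact_mod_cast h6
    convert h7

open Classical in
/-- the form for graphs -/
theorem fin_host (δ : ℝ) (hδ : 0 < δ) : ∃ C : ℝ, 0 < C ∧ ∃ c : ℝ, 0 < c ∧ ∃ n₀ : ℕ,
    ∀ (V : Type) [Fintype V] (D : SimpleGraph V) (m : ℕ), n₀ ≤ Fintype.card V →
      (∀ x : V, δ * (Fintype.card V : ℝ) ≤ ((univ.filter (fun z => D.Adj x z)).card : ℝ)) →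
      (m : ℝ) + C * (Fintype.card V : ℝ) ≤ (D.edgeSet.ncard : ℝ) →
      (({H : SimpleGraph V | H ≤ D ∧ H.edgeSet.ncard = m ∧ ¬ Reconstructible H}.ncard : ℕ) : ℝ) ≤
        Real.exp (-(c * Fintype.card V)) * ((D.edgeSet.ncard.choose m : ℕ) : ℝ) ∧
      (({H : SimpleGraph V | Dᶜ ≤ H ∧ H.edgeSet.ncard = Dᶜ.edgeSet.ncard +
          (D.edgeSet.ncard - m) ∧ ¬ Reconstructible H}.ncard : ℕ) : ℝ) ≤
        Real.exp (-(c * Fintype.card V)) * ((D.edgeSet.ncard.choose m : ℕ) : ℝ) := by
  obtain ⟨C, hC, c, hc, n₀, h⟩ := host δ hδ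
  refine ⟨C, hC, c, hc, n₀, ?_⟩
  intro V _ D m hn hdeg hm
  rw [ncard_edgeSet] at hm ⊢
  have h1 := h V hn (ed D) (ed_sub_pairs D) (fun x => by
    have h2 := hdeg x
    have h3 : univ.filter (fun z => D.Adj x z) = univ.filter (fun z => s(x, z) ∈ ed D) := by
      ext z
      rw [mem_filter, mem_filter, mem_ed]
    rw [h3] at h2
    convert h2) m hm
  have hle : {H : SimpleGraph V | H ≤ D ∧ H.edgeSet.ncard = m ∧ ¬ Reconstructible H}.ncard ≤
      badD (ed D) m := by
    unfold badD
    rw [← Set.ncard_coe_finset]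
    apply Set.ncard_le_ncard_of_injOn (fun H => ed H)
    · rintro H ⟨h2, h3, h4⟩
      rw [mem_coe, mem_filter, mem_powersetCard]
      refine ⟨⟨ed_mono h2, by rw [← ncard_edgeSet]; exact h3⟩, ?_⟩
      rw [gr_ed]
      exact h4
    · intro H _ H' _ hh
      have hh' : ed H = ed H' := hh
      rw [← gr_ed H, hh', gr_ed]
  have hle' : (({H : SimpleGraph V | H ≤ D ∧ H.edgeSet.ncard = m ∧
      ¬ Reconstructible H}.ncard : ℕ) : ℝ) ≤ (badD (ed D) m : ℝ) := by
    exact_mod_cast hle
  have hfirst := hle'.trans h1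
  refine ⟨hfirst, le_trans ?_ hfirst⟩
  have hcompl : ∀ H : SimpleGraph V, H.edgeSet.ncard + Hᶜ.edgeSet.ncard = (pairs V).card := by
    intro H
    rw [ncard_edgeSet, ncard_edgeSet, ← card_union_of_disjoint]
    · congr 1
      ext e
      induction e using Sym2.ind with
      | _ x y =>
        rw [mem_union, mem_ed, mem_ed, mem_pairs, SimpleGraph.compl_adj]
        constructor
        · rintro (h | h)
          · exact h.ne
          · exact h.1
        · intro h
          by_cases h2 : H.Adj x y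
          · exact Or.inl h2
          · exact Or.inr ⟨h, h2⟩
    · rw [disjoint_left]
      intro e
      induction e using Sym2.ind with
      | _ x y =>
        rw [mem_ed, mem_ed, SimpleGraph.compl_adj]
        exact fun h1 h2 => h2.2 h1
  have h5 : {H : SimpleGraph V | Dᶜ ≤ H ∧ H.edgeSet.ncard = Dᶜ.edgeSet.ncard +
      ((ed D).card - m) ∧ ¬ Reconstructible H}.ncard ≤
      {H : SimpleGraph V | H ≤ D ∧ H.edgeSet.ncard = m ∧ ¬ Reconstructible H}.ncard := by
    apply Set.ncard_le_ncard_of_injOn (fun H => Hᶜ)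
    · rintro H ⟨h2, h3, h4⟩
      refine ⟨?_, ?_, fun h => h4 ?_⟩
      · have := compl_le_compl h2
        rwa [compl_compl] at this
      · have h6 := hcompl H
        have h7 := hcompl D
        rw [ncard_edgeSet D] at h7
        have h8 : m ≤ (ed D).card := by
          have h9 : 0 ≤ C * (Fintype.card V : ℝ) := by positivity
          have : (m : ℝ) ≤ ((ed D).card : ℝ) := by linarith
          exact_mod_cast this
        show (Hᶜ).edgeSet.ncard = m
        omega
      · have h6 := recon_compl _ h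
        rwa [compl_compl] at h6
    · intro H _ H' _ hh
      exact compl_injective hh
  exact_mod_cast h5

end Pool.Agent.J4H85.RP
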