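import Pool.Agent.J4H85.RP.Par

set_option autoImplicit false

/-! Very sparse random graphs have isolated vertices. -/

namespace Pool.Agent.J4H85.RP

open Finset Pool.Agent.H234RC Pool.Agent.TH953.RC Pool.Agent.Y395.RS Pool.Agent.Y395.RW

section

variable {V : Type} [DecidableEq V]

/-- some neighbour of `x` in `W` -/
theorem nbr_one (q : ℝ) (hq0 : 0 ≤ q) (hq1 : q ≤ 1) (W : Finset V) (x : V) (β : ℝ)
    (hβ : β ≤ (1 - q) ^ W.card) :
    pr (fun _ => q) (W.image (fun z => s(x, z))) (fun A => ∃ z ∈ W, s(x, z) ∈ A) ≤ 1 - β := by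
  classical
  set T := W.image (fun z => s(x, z)) with hT
  have h1 := pr_true (p := fun _ : Sym2 V => q) T
  unfold pr at h1
  rw [filter_true] at h1
  have h2 : ∅ ∈ T.powerset := empty_mem_powerset _
  rw [← sum_erase_add _ _ h2] at h1
  have h3 : wt (fun _ => q) T ∅ = (1 - q) ^ T.card := by
    rw [wt_const, card_empty, pow_zero, one_mul, sdiff_empty]
  have h4 : (1 - q) ^ W.card ≤ (1 - q) ^ T.card :=
    pow_le_pow_of_le_one (by linarith) (by linarith) card_image_le
  have h5 : pr (fun _ => q) T (fun A => ∃ z ∈ W, s(x, z) ∈ A) ≤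
      ∑ F ∈ T.powerset.erase ∅, wt (fun _ => q) T F := by
    unfold pr
    apply sum_le_sum_of_subset_of_nonneg
    · intro F hF
      simp only [mem_filter] at hF
      obtain ⟨hF1, z, _, hz⟩ := hF
      rw [mem_erase]
      refine ⟨?_, hF1⟩
      rintro rfl
      exact notMem_empty _ hz
    · intro F _ _
      exact wt_nonneg (fun _ => hq0) (fun _ => hq1) T F
  linarith

/-- all vertices of `X` have neighbours in `W` -/
theorem nbr_all (q : ℝ) (hq0 : 0 ≤ q) (hq1 : q ≤ 1) (W : Finset V) (β : ℝ)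
    (hβ : β ≤ (1 - q) ^ W.card) (X : Finset V) :
    ∀ E : Finset (Sym2 V), Disjoint X W → (∀ x ∈ X, ∀ z ∈ W, s(x, z) ∈ E) →
    pr (fun _ => q) E (fun R => ∀ x ∈ X, ∃ z ∈ W, s(x, z) ∈ R) ≤ (1 - β) ^ X.card := by
  classical
  have hβ1 : 0 ≤ 1 - β := by
    have : (1 - q) ^ W.card ≤ 1 := pow_le_one₀ (by linarith) (by linarith)
    linarith
  have hp0 : ∀ e : Sym2 V, 0 ≤ (fun _ : Sym2 V => q) e := fun _ => hq0
  have hp1 : ∀ e : Sym2 V, (fun _ : Sym2 V => q) e ≤ 1 := fun _ => hq1
  induction X using Finset.induction_on with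
  | empty =>
    intro E _ _
    rw [card_empty, pow_zero]
    exact pr_le_one hp0 hp1 E _
  | insert x X hx ih =>
    intro E hdis hE
    rw [disjoint_insert_left] at hdis
    obtain ⟨hxW, hXW⟩ := hdis
    set T := W.image (fun z => s(x, z)) with hT
    have hTE : T ⊆ E := by
      intro e he
      obtain ⟨z, hz, rfl⟩ := mem_image.1 he
      exact hE x (mem_insert_self _ _) z hz
    have hnot : ∀ y ∈ X, ∀ z ∈ W, s(y, z) ∉ T := by
      intro y hy z hz h
      obtain ⟨w, hw, h⟩ := mem_image.1 h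
      rcases Sym2.eq_iff.1 h with ⟨h1, _⟩ | ⟨h1, _⟩
      · exact hx (by rw [h1]; exact hy)
      · exact hxW (by rw [h1]; exact hz)
    rw [pr_split E T hTE]
    have ih' := ih (E \ T) hXW (fun y hy z hz =>
      mem_sdiff.2 ⟨hE y (mem_insert_of_mem hy) z hz, hnot y hy z hz⟩)
    have hstep : ∀ F0 ∈ (E \ T).powerset, wt (fun _ => q) (E \ T) F0 *
        pr (fun _ => q) T (fun A => ∀ y ∈ insert x X, ∃ z ∈ W, s(y, z) ∈ F0 ∪ A) ≤
        (if ∀ y ∈ X, ∃ z ∈ W, s(y, z) ∈ F0 then wt (fun _ => q) (E \ T) F0 else 0) *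
          (1 - β) := by
      intro F0 hF0
      have hw := wt_nonneg hp0 hp1 (E \ T) F0
      have hF0T : ∀ e ∈ F0, e ∉ T := fun e he => (mem_sdiff.1 (mem_powerset.1 hF0 he)).2
      split_ifs with hc
      · apply mul_le_mul_of_nonneg_left _ hw
        refine (pr_mono hp0 hp1 ?_).trans (nbr_one q hq0 hq1 W x β hβ)
        intro A _ hA
        obtain ⟨z, hz, h⟩ := hA x (mem_insert_self _ _)
        refine ⟨z, hz, ?_⟩
        rcases mem_union.1 h with h | h
        · exact absurd (mem_image_of_mem _ hz) (hF0T _ h)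
        · exact h
      · rw [zero_mul]
        refine le_of_eq (mul_eq_zero_of_right _ ?_)
        have : pr (fun _ => q) T (fun A => ∀ y ∈ insert x X, ∃ z ∈ W, s(y, z) ∈ F0 ∪ A) ≤ 0 := by
          refine (pr_mono hp0 hp1 (Q := fun _ => False) ?_).trans (le_of_eq (pr_false T))
          intro A hA h
          apply hc
          intro y hy
          obtain ⟨z, hz, h⟩ := h y (mem_insert_of_mem hy)
          refine ⟨z, hz, ?_⟩
          rcases mem_union.1 h with h | h
          · exact h
          · exact absurd (hA h) (hnot y hy z hz)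
        exact le_antisymm this (pr_nonneg hp0 hp1 T _)
    refine (sum_le_sum hstep).trans ?_
    rw [← sum_mul, ← sum_filter, card_insert_of_notMem hx, pow_succ]
    apply mul_le_mul_of_nonneg_right _ hβ1
    refine le_trans (le_of_eq ?_) ih'
    unfold pr
    congr

end

section

variable {V : Type} [Fintype V] [DecidableEq V]

/-- no isolated vertices -/
theorem no_isolated (q : ℝ) (hq0 : 0 ≤ q) (hq1 : q ≤ 1) (A : Finset V) (t : ℕ) (β : ℝ)
    (hβ : β ≤ (1 - q) ^ (univ \ A).card) (hβ0 : 0 ≤ β) :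
    pr (fun _ => q) (pairs V) (fun R => ∀ x, ∃ y, s(x, y) ∈ R) ≤
      Real.exp (q * (A.card : ℝ) ^ 2 * 2 - t) + (1 - β) ^ (A.card - 2 * t) := by
  classical
  have hp0 : ∀ e : Sym2 V, 0 ≤ (fun _ : Sym2 V => q) e := fun _ => hq0
  have hp1 : ∀ e : Sym2 V, (fun _ : Sym2 V => q) e ≤ 1 := fun _ => hq1
  have hβ1 : 0 ≤ 1 - β := by
    have : (1 - q) ^ (univ \ A).card ≤ 1 := pow_le_one₀ (by linarith) (by linarith)
    linarith
  set A2 : Finset (Sym2 V) := (pairs V).filter (fun e => ∀ x ∈ e, x ∈ A) with hA2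
  have hA2s : A2 ⊆ pairs V := filter_subset _ _
  have hA2c : (A2.card : ℝ) ≤ (A.card : ℝ) ^ 2 := by
    have h1 : A2 ⊆ (A ×ˢ A).image (fun p => s(p.1, p.2)) := by
      intro e he
      obtain ⟨_, h2⟩ := mem_filter.1 he
      induction e using Sym2.ind with
      | _ a b =>
        exact mem_image.2 ⟨(a, b), mem_product.2 ⟨h2 a (Sym2.mem_mk_left a b),
          h2 b (Sym2.mem_mk_right a b)⟩, rfl⟩
    have h2 : A2.card ≤ A.card ^ 2 := by
      refine (card_le_card h1).trans (card_image_le.trans (le_of_eq ?_))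
      rw [card_product, sq]
    exact_mod_cast h2
  refine (pr_mono hp0 hp1 (Q := fun R => t ≤ (R ∩ A2).card ∨
    ((R ∩ A2).card < t ∧ ∀ x, ∃ y, s(x, y) ∈ R)) ?_).trans
    ((pr_or hp0 hp1 _ _ _).trans (add_le_add ?_ ?_))
  · intro R _ hR
    rcases Nat.lt_or_ge (R ∩ A2).card t with h | h
    · exact Or.inr ⟨h, hR⟩
    · exact Or.inl h
  · refine (upper_tail hq0 hq1 (pairs V) A2 hA2s t).trans (Real.exp_le_exp.2 ?_)
    have := mul_le_mul_of_nonneg_left hA2c hq0
    linarith
  · set T : Finset (Sym2 V) := TT (pairs V) A (univ \ A) with hT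
    have hTs : T ⊆ pairs V := filter_subset _ _
    apply pr_cond hp0 hp1 (pairs V) T hTs
    intro F0 hF0
    have hF0T : ∀ e ∈ F0, e ∉ T := fun e he => (mem_sdiff.1 (hF0 he)).2
    have hF0p : ∀ e ∈ F0, e ∈ pairs V := fun e he => (mem_sdiff.1 (hF0 he)).1
    by_cases hc : (F0 ∩ A2).card < t
    · set X : Finset V := A.filter (fun x => ∀ e ∈ F0 ∩ A2, x ∉ e) with hX
      have hXc : A.card - 2 * t ≤ X.card := by
        have h1 : A ⊆ X ∪ (F0 ∩ A2).biUnion (fun e => univ.filter (fun x => x ∈ e)) := by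
          intro x hx
          rw [mem_union, mem_biUnion]
          by_cases h : ∀ e ∈ F0 ∩ A2, x ∉ e
          · exact Or.inl (mem_filter.2 ⟨hx, h⟩)
          · push Not at h
            obtain ⟨e, he, hxe⟩ := h
            exact Or.inr ⟨e, he, mem_filter.2 ⟨mem_univ _, hxe⟩⟩
        have h2 : ((F0 ∩ A2).biUnion (fun e => univ.filter (fun x => x ∈ e))).card ≤
            2 * (F0 ∩ A2).card := by
          refine card_biUnion_le.trans ?_
          calc ∑ e ∈ F0 ∩ A2, (univ.filter (fun x => x ∈ e)).card ≤ ∑ _e ∈ F0 ∩ A2, 2 := by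
                apply sum_le_sum
                intro e _
                induction e using Sym2.ind with
                | _ a b =>
                  have hs : univ.filter (fun x => x ∈ s(a, b)) ⊆ {a, b} := by
                    intro x hx
                    rw [mem_insert, mem_singleton]
                    exact Sym2.mem_iff.1 (mem_filter.1 hx).2
                  exact (card_le_card hs).trans card_le_two
            _ = 2 * (F0 ∩ A2).card := by rw [sum_const, smul_eq_mul, mul_comm]
        have h3 := (card_le_card h1).trans (card_union_le _ _)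
        omega
      have hXA : X ⊆ A := filter_subset _ _
      refine (pr_mono hp0 hp1 ?_).trans ((nbr_all q hq0 hq1 (univ \ A) β hβ X T ?_ ?_).trans ?_)
      · rintro A' hA' ⟨_, h⟩ x hx
        obtain ⟨y, hy⟩ := h x
        have hxA := hXA hx
        rcases mem_union.1 hy with hy | hy
        · exfalso
          by_cases hyA : y ∈ A
          · have hA2m : s(x, y) ∈ F0 ∩ A2 := by
              rw [mem_inter, hA2, mem_filter]
              refine ⟨hy, hF0p _ hy, fun z hz => ?_⟩
              rcases Sym2.mem_iff.1 hz with rfl | rfl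
              · exact hxA
              · exact hyA
            exact (mem_filter.1 hx).2 _ hA2m (Sym2.mem_mk_left x y)
          · exact hF0T _ hy ((mem_TT _ _ _ _).2 ⟨hF0p _ hy, x, hxA, y,
              mem_sdiff.2 ⟨mem_univ _, hyA⟩, rfl⟩)
        · have h1 := hA' hy
          rw [hT, mem_TT] at h1
          obtain ⟨_, a, ha, z, hz, h2⟩ := h1
          rcases Sym2.eq_iff.1 h2 with ⟨_, h3⟩ | ⟨h3, _⟩
          · refine ⟨y, ?_, hy⟩
            rw [h3]
            exact hz
          · exfalso
            rw [← h3] at hz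
            exact (mem_sdiff.1 hz).2 hxA
      · rw [disjoint_left]
        intro x hx hx'
        exact (mem_sdiff.1 hx').2 (hXA hx)
      · intro x hx z hz
        rw [hT, mem_TT, mem_pairs]
        refine ⟨?_, x, hXA hx, z, hz, rfl⟩
        rintro rfl
        exact (mem_sdiff.1 hz).2 (hXA hx)
      · exact pow_le_pow_of_le_one hβ1 (by linarith) hXc
    · refine (pr_mono hp0 hp1 (Q := fun _ => False) ?_).trans ?_
      · rintro A' hA' ⟨h, _⟩
        apply hc
        refine lt_of_le_of_lt (card_le_card ?_) h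
        exact inter_subset_inter_right subset_union_left
      · rw [pr_false]
        positivity

end

/-- very sparse random graphs have an isolated vertex, up to an exponentially small probability -/
theorem sparse (C : ℝ) (hC : 0 < C) : ∃ c : ℝ, 0 < c ∧ ∃ n₀ : ℕ,
    ∀ (V : Type) [Fintype V] [DecidableEq V], n₀ ≤ Fintype.card V →
    ∀ q : ℝ, 0 ≤ q → q ≤ C / (Fintype.card V : ℝ) →
      pr (fun _ => q) (pairs V) (fun R => ∀ x, ∃ y, s(x, y) ∈ R) ≤
        Real.exp (-(c * Fintype.card V)) := by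
  set γ : ℝ := 1 / (32 * (C + 1)) with hγ
  have hγ0 : 0 < γ := by positivity
  have hγ1 : γ ≤ 1 / 32 := by
    rw [hγ]
    apply one_div_le_one_div_of_le (by norm_num)
    linarith
  set β : ℝ := Real.exp (-(2 * C)) with hβ
  have hβ0 : 0 < β := Real.exp_pos _
  have hβ1 : β ≤ 1 := by
    rw [hβ, Real.exp_le_one_iff]
    linarith
  have hβγ : 0 < β * γ := by positivity
  obtain ⟨n₀, hn₀⟩ := exists_nat_gt (2 * C + 16 / γ + 64 / (β * γ) + 1)
  have e1 : 0 < 16 / γ := by positivity
  have e2 : 0 < 64 / (β * γ) := by positivity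
  refine ⟨β * γ / 64, by positivity, n₀, ?_⟩
  intro V _ _ hn q hq0 hq
  set n := Fintype.card V with hnn
  have hnR : (n₀ : ℝ) ≤ n := by exact_mod_cast hn
  have hn0 : (0 : ℝ) < n := by linarith
  have m1 : 2 * C ≤ n := by linarith
  have m2 : 16 ≤ γ * n := by
    have h1 : 16 / γ ≤ n := by linarith
    rw [div_le_iff₀ hγ0] at h1
    linarith
  have m3 : 64 ≤ β * γ * n := by
    have h1 : 64 / (β * γ) ≤ n := by linarith
    rw [div_le_iff₀ hβγ] at h1
    linarith
  have hCn : C / n ≤ 1 / 2 := by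
    rw [div_le_iff₀ hn0]
    linarith
  have hq2 : q ≤ 1 / 2 := hq.trans hCn
  have hq1 : q ≤ 1 := by linarith
  -- the set `A`
  have hfl : ⌊γ * n⌋₊ ≤ (univ : Finset V).card := by
    rw [card_univ]
    have h1 : (⌊γ * n⌋₊ : ℝ) ≤ γ * n := Nat.floor_le (by positivity)
    have h2 : γ * n ≤ n := by nlinarith
    exact_mod_cast h1.trans h2
  obtain ⟨A, _, hA⟩ := exists_subset_card_eq hfl
  have a1 : (A.card : ℝ) ≤ γ * n := by
    rw [hA]
    exact Nat.floor_le (by positivity)
  have a2 : γ * n / 2 ≤ A.card := by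
    have := Nat.lt_floor_add_one (γ * n)
    rw [hA]
    linarith
  have a8 : 8 ≤ A.card := by
    have : (8 : ℝ) ≤ A.card := by linarith
    exact_mod_cast this
  have hpow : β ≤ (1 - q) ^ (univ \ A).card := by
    have h1 : Real.exp (-(2 * q)) ≤ 1 - q := by
      have h2 := Real.add_one_le_exp (2 * q)
      rw [Real.exp_neg]
      have h3 : 0 < 1 - q := by linarith
      rw [inv_le_comm₀ (Real.exp_pos _) h3]
      refine le_trans ?_ h2
      rw [inv_le_iff_one_le_mul₀ h3]
      nlinarith
    calc β ≤ Real.exp (-(2 * q)) ^ (univ \ A).card := by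
          rw [hβ, ← Real.exp_nat_mul]
          apply Real.exp_le_exp.2
          have h2 : ((univ \ A).card : ℝ) ≤ n := by
            have : (univ \ A).card ≤ n := by
              rw [hnn, ← card_univ]
              exact card_le_card sdiff_subset
            exact_mod_cast this
          have h3 : ((univ \ A).card : ℝ) * q ≤ n * (C / n) :=
            mul_le_mul h2 hq hq0 hn0.le
          have h4 : (n : ℝ) * (C / n) = C := by field_simp
          linarith
      _ ≤ (1 - q) ^ (univ \ A).card := pow_le_pow_left₀ (Real.exp_pos _).le h1 _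
  set t : ℕ := A.card / 4 with ht
  have t1 : (A.card : ℝ) / 8 ≤ t := by
    have h1 : A.card ≤ 8 * t := by omega
    have h2 : (A.card : ℝ) ≤ 8 * t := by exact_mod_cast h1
    linarith
  have t2 : A.card ≤ 2 * (A.card - 2 * t) := by omega
  refine (no_isolated q hq0 hq1 A t β hpow hβ0.le).trans ?_
  have hA0 : (0 : ℝ) ≤ A.card := Nat.cast_nonneg _
  have b1 : Real.exp (q * (A.card : ℝ) ^ 2 * 2 - t) ≤ Real.exp (-(β * γ * n / 32)) := by
    apply Real.exp_le_exp.2
    have h1 : q * (A.card : ℝ) ≤ C / n * (γ * n) := mul_le_mul hq a1 hA0 (by positivity)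
    have h2 : C / n * (γ * n) = C * γ := by field_simp
    have h3 : C * γ ≤ 1 / 32 := by
      rw [hγ, mul_one_div, div_le_div_iff₀ (by positivity) (by norm_num)]
      linarith
    have h4 : q * (A.card : ℝ) ^ 2 ≤ 1 / 32 * A.card := by
      calc q * (A.card : ℝ) ^ 2 = (q * A.card) * A.card := by ring
        _ ≤ 1 / 32 * A.card := mul_le_mul_of_nonneg_right (by linarith) hA0
    have h5 : β * γ * n ≤ γ * n := by
      have : 0 ≤ γ * n := by positivity
      nlinarith
    nlinarith
  have b2 : (1 - β) ^ (A.card - 2 * t) ≤ Real.exp (-(β * γ * n / 32)) := by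
    have h1 : 1 - β ≤ Real.exp (-β) := by
      have := Real.add_one_le_exp (-β)
      linarith
    calc (1 - β) ^ (A.card - 2 * t) ≤ Real.exp (-β) ^ (A.card - 2 * t) :=
          pow_le_pow_left₀ (by linarith) h1 _
      _ = Real.exp (-(β * ((A.card - 2 * t : ℕ) : ℝ))) := by
          rw [← Real.exp_nat_mul]
          congr 1
          ring
      _ ≤ _ := by
          apply Real.exp_le_exp.2
          have h2 : (A.card : ℝ) ≤ 2 * ((A.card - 2 * t : ℕ) : ℝ) := by exact_mod_cast t2
          have h3 : β * (γ * n / 4) ≤ β * ((A.card - 2 * t : ℕ) : ℝ) :=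
            mul_le_mul_of_nonneg_left (by linarith) hβ0.le
          have h4 : 0 ≤ β * γ * n := by positivity
          linarith
  have b3 : (2 : ℝ) ≤ Real.exp (β * γ / 64 * n) := by
    have := Real.add_one_le_exp (β * γ / 64 * n)
    linarith
  have b4 : Real.exp (-(β * γ * n / 32)) =
      Real.exp (-(β * γ / 64 * n)) * Real.exp (-(β * γ / 64 * n)) := by
    rw [← Real.exp_add]
    congr 1
    ring
  have b5 : Real.exp (β * γ / 64 * n) * Real.exp (-(β * γ / 64 * n)) = 1 := by
    rw [← Real.exp_add, add_neg_cancel, Real.exp_zero]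
  have b6 := Real.exp_pos (-(β * γ / 64 * n))
  have b7 : 2 * Real.exp (-(β * γ * n / 32)) ≤ Real.exp (-(β * γ / 64 * n)) := by
    rw [b4]
    nlinarith
  linarith

end Pool.Agent.J4H85.RP
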