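import Pool.Agent.J4H85.RP.Edges

set_option autoImplicit false

/-! Orderings of a finite set and their initial segments. -/

namespace Pool.Agent.J4H85.RP

open Finset Pool.Agent.H234RC Pool.Agent.TH953.RC Pool.Agent.Y395.RS Pool.Agent.Y395.RW

section

variable {E : Type} [Fintype E] [DecidableEq E] {N : ℕ}

/-- the first `m` members of the ordering `σ` -/
def pre (σ : Fin N ≃ E) (m : ℕ) : Finset E := univ.filter (fun e => (σ.symm e : ℕ) < m)

theorem mem_pre (σ : Fin N ≃ E) (m : ℕ) (e : E) : e ∈ pre σ m ↔ (σ.symm e : ℕ) < m := by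
  unfold pre
  rw [mem_filter]
  exact ⟨fun h => h.2, fun h => ⟨mem_univ _, h⟩⟩

theorem card_pre (σ : Fin N ≃ E) (m : ℕ) (hm : m ≤ N) : (pre σ m).card = m := by
  have h1 : pre σ m = (univ.filter (fun i : Fin N => (i : ℕ) < m)).map σ.toEmbedding := by
    ext e
    rw [mem_pre, mem_map]
    constructor
    · intro h
      exact ⟨σ.symm e, mem_filter.2 ⟨mem_univ _, h⟩, σ.apply_symm_apply e⟩
    · rintro ⟨i, hi, rfl⟩
      have := (mem_filter.1 hi).2
      simpa using this
  rw [h1, card_map, Fin.card_filter_val_lt]
  exact min_eq_right hm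

/-- the orderings which begin with the members of `S` -/
def ords (N : ℕ) (m : ℕ) (S : Finset E) : Finset (Fin N ≃ E) := univ.filter (fun σ => pre σ m = S)

theorem ords_le (m : ℕ) (S S' : Finset E) (h : S.card = S'.card) :
    (ords N m S).card ≤ (ords N m S').card := by
  classical
  -- a permutation which maps `S` onto `S'`
  have hcard : Fintype.card {x // x ∈ S} = Fintype.card {x // x ∈ S'} := by
    rw [Fintype.card_coe, Fintype.card_coe, h]
  let e : {x // x ∈ S} ≃ {x // x ∈ S'} := Fintype.equivOfCardEq hcard
  let τ : Equiv.Perm E := e.extendSubtype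
  have h1 : ∀ x, x ∈ S → τ x ∈ S' := fun x hx => e.extendSubtype_mem x hx
  have h2 : ∀ x, x ∉ S → τ x ∉ S' := fun x hx => e.extendSubtype_not_mem x hx
  have h3 : ∀ y, τ.symm y ∈ S ↔ y ∈ S' := by
    intro y
    constructor
    · intro hy
      have := h1 _ hy
      rwa [Equiv.apply_symm_apply] at this
    · intro hy
      by_contra hc
      have := h2 _ hc
      rw [Equiv.apply_symm_apply] at this
      exact this hy
  apply card_le_card_of_injOn (fun σ => σ.trans τ)
  · intro σ hσ
    have hσ' := (mem_filter.1 (mem_coe.1 hσ)).2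
    rw [mem_coe]
    unfold ords
    rw [mem_filter]
    refine ⟨mem_univ _, ?_⟩
    ext y
    rw [mem_pre, ← h3 y, ← hσ', mem_pre]
    rfl
  · intro σ _ σ' _ hh
    have hh' : σ.trans τ = σ'.trans τ := hh
    ext i
    have := congrArg (fun f => f i) hh'
    exact τ.injective this

theorem ords_eq (m : ℕ) (S S' : Finset E) (h : S.card = S'.card) :
    (ords N m S).card = (ords N m S').card :=
  le_antisymm (ords_le m S S' h) (ords_le m S' S h.symm)

/-- the initial segments of a random ordering are uniformly distributed -/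
theorem count_ords (hN : Fintype.card E = N) (m : ℕ) (hm : m ≤ N) (S : Finset E)
    (hS : S.card = m) :
    (ords N m S).card * N.choose m = N.factorial := by
  classical
  have h1 : (univ : Finset (Fin N ≃ E)).card =
      ∑ S' ∈ (univ : Finset E).powersetCard m, (ords N m S').card := by
    apply card_eq_sum_card_fiberwise
    intro σ _
    rw [mem_coe, mem_powersetCard]
    exact ⟨subset_univ _, card_pre σ m hm⟩
  have h2 : (univ : Finset (Fin N ≃ E)).card = N.factorial := by
    rw [card_univ]
    have e : Fin N ≃ E := (Fintype.equivFinOfCardEq hN).symm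
    rw [Fintype.card_equiv e, Fintype.card_fin]
  rw [h2] at h1
  rw [h1, sum_congr rfl (fun S' hS' => ords_eq m S' S
    ((mem_powersetCard.1 hS').2.trans hS.symm)), sum_const, card_powersetCard, card_univ, hN,
    smul_eq_mul, mul_comm]

open Classical in
/-- the orderings with a bad initial segment -/
theorem bad_ords (hN : Fintype.card E = N) (P : Finset E → Prop) (ρ : ℝ)
    (h : ∀ m, m ≤ N → ((((univ : Finset E).powersetCard m).filter P).card : ℝ) ≤
      ρ * (N.choose m : ℝ)) :
    ((univ.filter (fun σ : Fin N ≃ E => ∃ m, m ≤ N ∧ P (pre σ m))).card : ℝ) ≤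
      ((N : ℝ) + 1) * ρ * (N.factorial : ℝ) := by
  have key : ∀ m ∈ range (N + 1),
      ((univ.filter (fun σ : Fin N ≃ E => P (pre σ m))).card : ℝ) ≤ ρ * (N.factorial : ℝ) := by
    intro m hm
    have hm' : m ≤ N := by
      rw [mem_range] at hm
      omega
    have h1 : (univ.filter (fun σ : Fin N ≃ E => P (pre σ m))).card =
        ∑ S ∈ ((univ : Finset E).powersetCard m).filter P, (ords N m S).card := by
      rw [card_eq_sum_card_fiberwise (f := fun σ => pre σ m)
        (t := ((univ : Finset E).powersetCard m).filter P)]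
      · apply sum_congr rfl
        intro S hS
        congr 1
        ext σ
        unfold ords
        simp only [mem_filter, mem_univ, true_and]
        constructor
        · rintro ⟨_, h2⟩
          exact h2
        · intro h2
          rw [h2]
          exact ⟨(mem_filter.1 hS).2, rfl⟩
      · intro σ hσ
        have hσ' := (mem_filter.1 (mem_coe.1 hσ)).2
        rw [mem_coe, mem_filter, mem_powersetCard]
        exact ⟨⟨subset_univ _, card_pre σ m hm'⟩, hσ'⟩
    have hC : (0 : ℝ) < N.choose m := by
      exact_mod_cast Nat.choose_pos hm'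
    have h2 : ∀ S ∈ ((univ : Finset E).powersetCard m).filter P,
        ((ords N m S).card : ℝ) = (N.factorial : ℝ) / N.choose m := by
      intro S hS
      have h3 := count_ords hN m hm' S (mem_powersetCard.1 (mem_filter.1 hS).1).2
      rw [eq_div_iff hC.ne']
      exact_mod_cast h3
    rw [h1]
    push_cast
    rw [sum_congr rfl h2, sum_const, nsmul_eq_mul]
    have h4 := h m hm'
    calc ((((univ : Finset E).powersetCard m).filter P).card : ℝ) *
          ((N.factorial : ℝ) / N.choose m)
        ≤ (ρ * (N.choose m : ℝ)) * ((N.factorial : ℝ) / N.choose m) :=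
          mul_le_mul_of_nonneg_right h4 (by positivity)
      _ = ρ * (N.factorial : ℝ) := by
          field_simp
  have hsub : univ.filter (fun σ : Fin N ≃ E => ∃ m, m ≤ N ∧ P (pre σ m)) ⊆
      (range (N + 1)).biUnion (fun m => univ.filter (fun σ : Fin N ≃ E => P (pre σ m))) := by
    intro σ hσ
    obtain ⟨_, m, hm, hP⟩ := mem_filter.1 hσ
    exact mem_biUnion.2 ⟨m, mem_range.2 (by omega), mem_filter.2 ⟨mem_univ _, hP⟩⟩
  have h5 : ((univ.filter (fun σ : Fin N ≃ E => ∃ m, m ≤ N ∧ P (pre σ m))).card : ℝ) ≤
      ∑ m ∈ range (N + 1), ((univ.filter (fun σ : Fin N ≃ E => P (pre σ m))).card : ℝ) := by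
    have := (card_le_card hsub).trans card_biUnion_le
    exact_mod_cast this
  refine h5.trans ((sum_le_sum key).trans (le_of_eq ?_))
  rw [sum_const, card_range, nsmul_eq_mul]
  push_cast
  ring

end

end Pool.Agent.J4H85.RP
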