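import Pool.Agent.J4H85.RP.Core
import Pool.Agent.J4H85.RP.Conv

set_option autoImplicit false

/-! The choice of the parameters, and independent edges of arbitrary probabilities. -/

namespace Pool.Agent.J4H85.RP

open Finset Pool.Agent.H234RC Pool.Agent.TH953.RC Pool.Agent.Y395.RS Pool.Agent.Y395.RW

open Classical in
/-- the conclusions for a graph `G` and a set `Y` of vertices -/
def Good (δ : ℝ) {V : Type} [Fintype V] (G : SimpleGraph V) (Y : Finset V) : Prop :=
  (((BT G).card : ℕ) : ℝ) ≤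
      (5 * ((Fintype.card V : ℝ) - Y.card) + δ * Fintype.card V) * (Fintype.card V : ℝ) ^ 2 ∧
    ((1 / 2 + δ) * (Fintype.card V : ℝ) ≤ Y.card → Reconstructible G)

theorem good_of_few {V : Type} [Fintype V] [DecidableEq V] (δ : ℝ) (G : SimpleGraph V)
    (Y : Finset V) (s : ℕ)
    (hs : (s : ℝ) ≤ δ * Fintype.card V / 8 + 1) (hn : 32 ≤ δ * (Fintype.card V : ℝ))
    (h3 : 3 ≤ Fintype.card V)
    (h : ¬ ∃ M : Finset V, (∀ x ∈ M, x ∈ Y ∧ ¬ Rn G x) ∧ s ≤ M.card) : Good δ G Y := by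
  classical
  set n := Fintype.card V with hnn
  have hM : ((Mv G).card : ℝ) ≤ (n : ℝ) - Y.card + (δ * n / 8 + 1) := by
    have h1 : ((Mv G).filter (fun x => x ∈ Y)).card < s := by
      by_contra hc
      push Not at hc
      apply h
      refine ⟨(Mv G).filter (fun x => x ∈ Y), fun x hx => ?_, hc⟩
      obtain ⟨h4, h5⟩ := mem_filter.1 hx
      exact ⟨h5, (mem_Mv G x).1 h4⟩
    have h2 : (Mv G).card ≤ ((Mv G).filter (fun x => x ∈ Y)).card + (univ \ Y).card := by
      refine (card_le_card (t := (Mv G).filter (fun x => x ∈ Y) ∪ (univ \ Y)) ?_).trans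
        (card_union_le _ _)
      intro x hx
      rw [mem_union, mem_filter, mem_sdiff]
      by_cases hY : x ∈ Y
      · exact Or.inl ⟨hx, hY⟩
      · exact Or.inr ⟨mem_univ _, hY⟩
    have h4 : (univ \ Y).card + Y.card = n := by
      rw [card_sdiff_add_card_eq_card (subset_univ Y), card_univ]
    have h5 : (Mv G).card + Y.card ≤ n + s := by omega
    have h6 : ((Mv G).card : ℝ) + Y.card ≤ n + s := by exact_mod_cast h5
    linarith
  refine ⟨?_, fun hY => ?_⟩
  · have h1 := bad_triples G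
    have h2 : (((BT G).card : ℕ) : ℝ) ≤ (5 * ((Mv G).card : ℝ) + 3) * (n : ℝ) ^ 2 := by
      exact_mod_cast h1
    have h4 : (5 * ((Mv G).card : ℝ) + 3) * (n : ℝ) ^ 2 ≤
        (5 * ((n : ℝ) - Y.card) + δ * n) * (n : ℝ) ^ 2 :=
      mul_le_mul_of_nonneg_right (by linarith) (by positivity)
    have h5 := h2.trans h4
    convert h5
  · apply Pool.Agent.Y297.RS.HALF.main V G h3
    have h1 : 2 * ((Mv G).card : ℝ) + 2 ≤ n := by linarith
    exact_mod_cast h1

/-- perturbations with density `C / n` -/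
theorem pert (δ B : ℝ) (hδ : 0 < δ) (hB : 0 ≤ B) : ∃ C : ℝ, 0 < C ∧ ∃ n₀ : ℕ,
    2 * C < n₀ ∧ 3 ≤ n₀ ∧ 32 ≤ δ * n₀ ∧
    ∀ (V : Type) [Fintype V] [DecidableEq V], n₀ ≤ Fintype.card V →
    ∀ (Y : Finset V) (Γ D : Finset (Sym2 V)), Γ ⊆ pairs V → D ⊆ pairs V →
      (∀ x ∈ Y, δ * (Fintype.card V : ℝ) ≤ ((Y.filter (fun z => s(x, z) ∈ D)).card : ℝ)) →
      pr (fun _ => C / (Fintype.card V : ℝ)) D (fun R => ¬ Good δ (gr (symmDiff Γ R)) Y) ≤
        Real.exp (-(B * Fintype.card V)) := by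
  set C : ℝ := 16 / δ * (18 + 8 * (B + 2) / δ) with hC
  have hC0 : 0 < C := by positivity
  set A : ℝ := C ^ 5 * Real.exp (8 * (B + 2) / δ) with hA
  have hA0 : 0 < A := by positivity
  obtain ⟨n₀, hn₀⟩ := exists_nat_gt (2 * C + 32 / δ + A + 3)
  have e0 : 0 < 32 / δ := by positivity
  have n1 : 2 * C < n₀ := by linarith
  have n2 : (3 : ℝ) ≤ n₀ := by linarith
  have n2' : 3 ≤ n₀ := by exact_mod_cast n2
  have n3 : 32 ≤ δ * n₀ := by
    have h1 : 32 / δ ≤ n₀ := by linarith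
    rw [div_le_iff₀ hδ] at h1
    linarith
  have n4 : A ≤ n₀ := by linarith
  refine ⟨C, hC0, n₀, n1, n2', n3, ?_⟩
  intro V _ _ hn Y Γ D hΓ hD hd
  set n := Fintype.card V with hnn
  have hnR : (n₀ : ℝ) ≤ n := by exact_mod_cast hn
  have hn0 : (0 : ℝ) < n := by linarith
  have m1 : 2 * C < n := by linarith
  have m3 : 32 ≤ δ * n := n3.trans (mul_le_mul_of_nonneg_left hnR hδ.le)
  have m4 : A ≤ n := by linarith
  have hq0 : 0 ≤ C / (n : ℝ) := by positivity
  have hq1 : C / (n : ℝ) ≤ 1 := by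
    rw [div_le_one hn0]
    linarith
  set s : ℕ := ⌊δ * n / 8⌋₊ + 1 with hs
  have s1 : δ * n / 8 ≤ s := by
    have := Nat.lt_floor_add_one (δ * n / 8)
    rw [hs]
    push_cast
    exact this.le
  have s2 : (s : ℝ) ≤ δ * n / 8 + 1 := by
    have : (⌊δ * n / 8⌋₊ : ℝ) ≤ δ * n / 8 := Nat.floor_le (by positivity)
    rw [hs]
    push_cast
    linarith
  set d : ℕ := ⌊δ * n / 2⌋₊ with hdd
  have d1 : (d : ℝ) ≤ δ * n / 2 := Nat.floor_le (by positivity)
  have d2 : δ * n / 4 ≤ d := by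
    have := Nat.lt_floor_add_one (δ * n / 2)
    linarith
  have hd' : ∀ x ∈ Y, d + 2 * s ≤ (Y.filter (fun z => s(x, z) ∈ D)).card := by
    intro x hx
    have h1 := hd x hx
    have h2 : ((d + 2 * s : ℕ) : ℝ) ≤ ((Y.filter (fun z => s(x, z) ∈ D)).card : ℝ) := by
      push_cast
      linarith
    exact_mod_cast h2
  have k1 : 8 * (B + 2) / δ ≤ C / n * d / 4 - 18 := by
    have h1 : C / n * (δ * n / 4) ≤ C / n * d := mul_le_mul_of_nonneg_left d2 hq0
    have h2 : C / n * (δ * n / 4) = C * δ / 4 := by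
      field_simp
    have h3 : C * δ / 4 = 4 * (18 + 8 * (B + 2) / δ) := by
      rw [hC]
      field_simp
      ring
    linarith
  have k0 : 0 ≤ 8 * (B + 2) / δ := by positivity
  set L : ℝ := (B + 2) * n with hL
  have kL : L ≤ s * (C / n * d / 4 - 18) := by
    have h1 : δ * n / 8 * (8 * (B + 2) / δ) = L := by
      rw [hL]
      field_simp
    calc L = δ * n / 8 * (8 * (B + 2) / δ) := h1.symm
      _ ≤ s * (8 * (B + 2) / δ) := mul_le_mul_of_nonneg_right s1 k0
      _ ≤ s * (C / n * d / 4 - 18) := mul_le_mul_of_nonneg_left k1 (Nat.cast_nonneg _)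
  have h5 : (n : ℝ) ^ 3 * (C / n) ^ 5 ≤ Real.exp (-(8 * (B + 2) / δ)) := by
    have h1 : (n : ℝ) ^ 3 * (C / n) ^ 5 = C ^ 5 / (n : ℝ) ^ 2 := by
      rw [div_pow]
      field_simp
    rw [h1, div_le_iff₀ (by positivity), Real.exp_neg]
    have h2 : A ≤ (n : ℝ) ^ 2 := by nlinarith
    rw [hA] at h2
    have h3 := Real.exp_pos (8 * (B + 2) / δ)
    rw [inv_mul_eq_div, le_div_iff₀ h3]
    exact h2
  have h5a : (n : ℝ) ^ 3 * (C / n) ^ 5 ≤ 1 := by
    refine h5.trans ?_
    rw [Real.exp_le_one_iff]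
    linarith
  have h5b : ((n : ℝ) ^ 3 * (C / n) ^ 5) ^ s ≤ Real.exp (-L) := by
    calc ((n : ℝ) ^ 3 * (C / n) ^ 5) ^ s ≤ Real.exp (-(8 * (B + 2) / δ)) ^ s :=
          pow_le_pow_left₀ (by positivity) h5 s
      _ = Real.exp (-(s * (8 * (B + 2) / δ))) := by
          rw [← Real.exp_nat_mul]
          congr 1
          ring
      _ ≤ Real.exp (-L) := by
          apply Real.exp_le_exp.2
          have h1 : δ * n / 8 * (8 * (B + 2) / δ) = L := by
            rw [hL]
            field_simp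
          have h2 : δ * n / 8 * (8 * (B + 2) / δ) ≤ s * (8 * (B + 2) / δ) :=
            mul_le_mul_of_nonneg_right s1 k0
          linarith
  have hcore := core (C / n) hq0 hq1 Γ D hΓ hD Y s d (by omega) hd' L (k0.trans k1) kL h5a h5b
  refine le_trans (pr_mono (fun _ => hq0) (fun _ => hq1) ?_) (hcore.trans ?_)
  · intro R _ hR
    by_contra hc
    exact hR (good_of_few δ _ Y s s2 m3 (n2'.trans hn) hc)
  · have h1 : Real.exp (-L) = Real.exp (-(B * n)) * Real.exp (-(2 * n)) := by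
      rw [← Real.exp_add, hL]
      congr 1
      ring
    have h2 : (8 : ℝ) * 2 ^ n * Real.exp (-(2 * n)) ≤ 1 := by
      have h3 : Real.exp (-(2 * (n : ℝ))) = (Real.exp (-2)) ^ n := by
        rw [← Real.exp_nat_mul]
        congr 1
        ring
      have h4 : Real.exp (-2) ≤ 1 / 4 := by
        rw [Real.exp_neg, ← one_div]
        apply one_div_le_one_div_of_le (by norm_num)
        have h6 : Real.exp 2 = Real.exp 1 * Real.exp 1 := by
          rw [← Real.exp_add]
          norm_num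
        have h7 : 2 ≤ Real.exp 1 := by
          have := Real.add_one_le_exp (1 : ℝ)
          linarith
        rw [h6]
        nlinarith
      have h5 : (2 : ℝ) ^ n * Real.exp (-2) ^ n ≤ (1 / 2) ^ n := by
        rw [← mul_pow]
        apply pow_le_pow_left₀ (by positivity)
        linarith
      have h6 : (1 / 2 : ℝ) ^ n ≤ (1 / 2) ^ 3 :=
        pow_le_pow_of_le_one (by norm_num) (by norm_num) (n2'.trans hn)
      rw [h3]
      calc (8 : ℝ) * 2 ^ n * Real.exp (-2) ^ n = 8 * (2 ^ n * Real.exp (-2) ^ n) := by ring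
        _ ≤ 8 * (1 / 2) ^ 3 := by
            apply mul_le_mul_of_nonneg_left (h5.trans h6) (by norm_num)
        _ = 1 := by norm_num
    rw [h1]
    calc 8 * 2 ^ n * (Real.exp (-(B * n)) * Real.exp (-(2 * n)))
        = Real.exp (-(B * n)) * (8 * 2 ^ n * Real.exp (-(2 * n))) := by ring
      _ ≤ Real.exp (-(B * n)) * 1 :=
          mul_le_mul_of_nonneg_left h2 (Real.exp_pos _).le
      _ = Real.exp (-(B * n)) := mul_one _

/-- independent edges of arbitrary probabilities -/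
theorem indep (δ B : ℝ) (hδ : 0 < δ) (hB : 0 ≤ B) : ∃ C : ℝ, 0 < C ∧ ∃ n₀ : ℕ,
    ∀ (V : Type) [Fintype V] [DecidableEq V], n₀ ≤ Fintype.card V →
    ∀ (Y : Finset V) (p : Sym2 V → ℝ), (∀ e, 0 ≤ p e ∧ p e ≤ 1) →
      (∀ x ∈ Y, δ * (Fintype.card V : ℝ) ≤ ((Y.filter (fun z => z ≠ x ∧
        C / (Fintype.card V : ℝ) ≤ p s(x, z) ∧
        p s(x, z) ≤ 1 - C / (Fintype.card V : ℝ))).card : ℝ)) →
      pr p (pairs V) (fun R => ¬ Good δ (gr R) Y) ≤ Real.exp (-(B * Fintype.card V)) := by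
  obtain ⟨C, hC0, n₀, n1, n2, n3, h⟩ := pert δ B hδ hB
  refine ⟨C, hC0, n₀, ?_⟩
  intro V _ _ hn Y p hp hd
  classical
  have hnR : (n₀ : ℝ) ≤ Fintype.card V := by exact_mod_cast hn
  have hn0 : (0 : ℝ) < Fintype.card V := by linarith
  set q : ℝ := C / (Fintype.card V : ℝ) with hq
  have hq2 : q < 1 / 2 := by
    rw [hq, div_lt_iff₀ hn0]
    linarith
  set D : Finset (Sym2 V) := (pairs V).filter (fun e => q ≤ p e ∧ p e ≤ 1 - q) with hD
  have hDs : D ⊆ pairs V := filter_subset _ _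
  refine pr_conv_le p (pairs V) D hDs q hq2 (fun e => (hp e).1) (fun e => (hp e).2)
    (fun e he => (mem_filter.1 he).2) _ _ (fun Γ hΓ => ?_)
  refine h V hn Y Γ D hΓ hDs (fun x hx => ?_)
  refine (hd x hx).trans ?_
  have h1 : (Y.filter (fun z => z ≠ x ∧ q ≤ p s(x, z) ∧ p s(x, z) ≤ 1 - q)).card ≤
      (Y.filter (fun z => s(x, z) ∈ D)).card := by
    apply card_le_card
    intro z hz
    obtain ⟨h1, h2, h3⟩ := mem_filter.1 hz
    rw [mem_filter, hD, mem_filter, mem_pairs]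
    exact ⟨h1, h2.symm, h3⟩
  exact_mod_cast h1

open Classical in
/-- exactly `m` changes -/
theorem flips (δ B : ℝ) (hδ : 0 < δ) (hB : 0 ≤ B) : ∃ C : ℝ, 0 < C ∧ ∃ n₀ : ℕ,
    ∀ (V : Type) [Fintype V] [DecidableEq V], n₀ ≤ Fintype.card V →
    ∀ (Y : Finset V) (Γ D : Finset (Sym2 V)), Γ ⊆ pairs V → D ⊆ pairs V →
      (∀ x ∈ Y, δ * (Fintype.card V : ℝ) ≤ ((Y.filter (fun z => s(x, z) ∈ D)).card : ℝ)) →
      ∀ m : ℕ, C * (Fintype.card V : ℝ) ≤ m → (m : ℝ) + C * Fintype.card V ≤ D.card →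
      (((D.powersetCard m).filter (fun R => ¬ Good δ (gr (symmDiff Γ R)) Y)).card : ℝ) ≤
        Real.exp (-(B * Fintype.card V)) * (D.card.choose m : ℝ) := by
  obtain ⟨C, hC0, n₀, n1, n2, n3, h⟩ := pert δ (B + 2) hδ (by linarith)
  refine ⟨C, hC0, n₀, ?_⟩
  intro V _ _ hn Y Γ D hΓ hD hd m hm1 hm2
  set n := Fintype.card V with hnn
  have hnR : (n₀ : ℝ) ≤ n := by exact_mod_cast hn
  have hn0 : (0 : ℝ) < n := by linarith
  set q : ℝ := C / (n : ℝ) with hq
  have hq2 : q < 1 / 2 := by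
    rw [hq, div_lt_iff₀ hn0]
    linarith
  have hD2 : (D.card : ℝ) ≤ (n : ℝ) ^ 2 := by
    have h1 : D.card ≤ n ^ 2 := by
      refine (card_le_card hD).trans ?_
      unfold pairs
      have h2 : (univ.filter (fun e : Sym2 V => ¬ e.IsDiag)).card ≤
          (((univ : Finset V) ×ˢ (univ : Finset V)).image (fun p => s(p.1, p.2))).card := by
        apply card_le_card
        intro e _
        induction e using Sym2.ind with
        | _ a b => exact mem_image.2 ⟨(a, b), mem_product.2 ⟨mem_univ _, mem_univ _⟩, rfl⟩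
      refine h2.trans (card_image_le.trans (le_of_eq ?_))
      rw [card_product, card_univ, sq]
    exact_mod_cast h1
  have hm0 : (0 : ℝ) ≤ m := Nat.cast_nonneg _
  have hDpos : (0 : ℝ) < D.card := by
    have : 0 < C * (n : ℝ) := by positivity
    linarith
  have hmD : m ≤ D.card := by
    have : (m : ℝ) ≤ D.card := by
      have : 0 < C * (n : ℝ) := by positivity
      linarith
    exact_mod_cast this
  have hCn : C / n * D.card ≤ C * n := by
    calc C / n * D.card ≤ C / n * (n : ℝ) ^ 2 := mul_le_mul_of_nonneg_left hD2 (by positivity)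
      _ = C * n := by field_simp
  have key : pr (fun _ => (m : ℝ) / D.card) D
      (fun R => ¬ Good δ (gr (symmDiff Γ R)) Y) ≤ Real.exp (-((B + 2) * n)) := by
    refine pr_conv_le (fun _ => (m : ℝ) / D.card) D D subset_rfl q hq2
      (fun _ => div_nonneg hm0 hDpos.le) (fun _ => ?_) (fun _ _ => ⟨?_, ?_⟩) _ _
      (fun Γ' hΓ' => ?_)
    · rw [div_le_one hDpos]
      exact_mod_cast hmD
    · rw [le_div_iff₀ hDpos]
      linarith
    · rw [div_le_iff₀ hDpos]
      have : (1 - q) * D.card = D.card - C / n * D.card := by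
        rw [hq]
        ring
      linarith
    · have h1 : ∀ R : Finset (Sym2 V), symmDiff Γ (symmDiff Γ' R) = symmDiff (symmDiff Γ Γ') R :=
        fun R => (symmDiff_assoc _ _ _).symm
      simp only [h1]
      refine h V hn Y (symmDiff Γ Γ') D ?_ hD hd
      intro e he
      rcases mem_symmDiff.1 he with h | h
      · exact hΓ h.1
      · exact hD (hΓ' h.1)
  have h1 := unif_le D m hmD (fun R => ¬ Good δ (gr (symmDiff Γ R)) Y) _ key
  have h0 : ((D.powersetCard m).filter (fun R => ¬ Good δ (gr (symmDiff Γ R)) Y)).card =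
      (@Finset.filter _ (fun R => ¬ Good δ (gr (symmDiff Γ R)) Y)
        (fun a => Classical.propDecidable _) (D.powersetCard m)).card := by
    congr
  rw [h0]
  refine h1.trans ?_
  apply mul_le_mul_of_nonneg_right _ (Nat.cast_nonneg _)
  have h2 : (D.card : ℝ) + 1 ≤ Real.exp (2 * n) := by
    have h3 := Real.add_one_le_exp (n : ℝ)
    have h4 : Real.exp (2 * n) = Real.exp n * Real.exp n := by
      rw [← Real.exp_add]
      congr 1
      ring
    rw [h4]
    nlinarith
  calc Real.exp (-((B + 2) * n)) * ((D.card : ℝ) + 1)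
      ≤ Real.exp (-((B + 2) * n)) * Real.exp (2 * n) :=
        mul_le_mul_of_nonneg_left h2 (Real.exp_pos _).le
    _ = Real.exp (-(B * n)) := by
        rw [← Real.exp_add]
        congr 1
        ring

end Pool.Agent.J4H85.RP
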