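import Pool.Agent.Y395.RW.Fin

set_option autoImplicit false

/-! Random subsets: colourings of maps without fixed points, links, tails. -/

namespace Pool.Agent.J4H85.RP

open Finset Pool.Agent.Y395.RW

theorem avoid_two (i j : Fin 3) : ∃ k : Fin 3, k ≠ i ∧ k ≠ j := by
  revert i j
  decide

/-- a map without fixed points in `S` has a proper colouring of `S` with three colours -/
theorem three_col {α : Type} [DecidableEq α] (f : α → α) (S : Finset α)
    (h : ∀ a ∈ S, f a ≠ a) : ∃ c : α → Fin 3, ∀ a ∈ S, f a ∈ S → c (f a) ≠ c a := by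
  induction S using Finset.strongInduction with
  | H S ih =>
    rcases S.eq_empty_or_nonempty with rfl | hS
    · exact ⟨fun _ => 0, by simp⟩
    · -- a vertex with at most one preimage
      have hex : ∃ a ∈ S, (S.filter (fun b => f b = a)).card ≤ 1 := by
        by_contra hcon
        push Not at hcon
        have h1 : ∑ _a ∈ S, 2 ≤ ∑ a ∈ S, (S.filter (fun b => f b = a)).card :=
          sum_le_sum fun a ha => hcon a ha
        have h2 : ∑ a ∈ S, (S.filter (fun b => f b = a)).card ≤ S.card := by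
          rw [← card_biUnion]
          · apply card_le_card
            intro x hx
            rw [mem_biUnion] at hx
            obtain ⟨a, _, hx⟩ := hx
            exact (mem_filter.1 hx).1
          · intro a _ b _ hab
            rw [Function.onFun, disjoint_left]
            intro x hxa hxb
            exact hab ((mem_filter.1 hxa).2.symm.trans (mem_filter.1 hxb).2)
        rw [sum_const, smul_eq_mul] at h1
        have := hS.card_pos
        omega
      obtain ⟨a, ha, hpre⟩ := hex
      obtain ⟨c, hc⟩ := ih (S.erase a) (erase_ssubset ha) fun b hb => h b (mem_of_mem_erase hb)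
      have hb : ∃ j : Fin 3, ∀ b ∈ S, f b = a → c b = j := by
        rcases Nat.le_one_iff_eq_zero_or_eq_one.1 hpre with h0 | h1
        · refine ⟨0, fun b hb hfb => ?_⟩
          rw [card_eq_zero] at h0
          exact absurd (mem_filter.2 ⟨hb, hfb⟩) (by rw [h0]; exact notMem_empty _)
        · obtain ⟨b0, hb0⟩ := card_eq_one.1 h1
          refine ⟨c b0, fun b hb hfb => ?_⟩
          have : b ∈ S.filter (fun b => f b = a) := mem_filter.2 ⟨hb, hfb⟩
          rw [hb0, mem_singleton] at this
          rw [this]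
      obtain ⟨j, hj⟩ := hb
      obtain ⟨k, hk1, hk2⟩ := avoid_two (c (f a)) j
      refine ⟨Function.update c a k, fun x hx hfx => ?_⟩
      by_cases hxa : x = a
      · subst hxa
        rw [Function.update_self, Function.update_of_ne (h x hx)]
        exact hk1.symm
      · by_cases hfa : f x = a
        · rw [hfa, Function.update_self, Function.update_of_ne hxa, hj x hx hfa]
          exact hk2
        · rw [Function.update_of_ne hfa, Function.update_of_ne hxa]
          exact hc x (mem_erase.2 ⟨hxa, hx⟩) (mem_erase.2 ⟨hfa, hfx⟩)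

section

variable {α : Type} [DecidableEq α] {q : ℝ}

theorem wt_const (D F : Finset α) :
    wt (fun _ => q) D F = q ^ F.card * (1 - q) ^ (D \ F).card := by
  unfold wt
  rw [prod_const, prod_const]

theorem wt_const_le (hq0 : 0 ≤ q) (hq1 : q ≤ 1) (D F : Finset α) (J : ℕ) (hJ : J ≤ F.card) :
    wt (fun _ => q) D F ≤ q ^ J := by
  rw [wt_const]
  calc q ^ F.card * (1 - q) ^ (D \ F).card ≤ q ^ F.card * 1 :=
        mul_le_mul_of_nonneg_left (pow_le_one₀ (by linarith) (by linarith)) (by positivity)
    _ = q ^ F.card := mul_one _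
    _ ≤ q ^ J := pow_le_pow_of_le_one hq0 hq1 hJ

/-- links and many members in an independent set -/
theorem link_one (hq0 : 0 ≤ q) (hq1 : q ≤ 1) (D I Γ : Finset α) (f : α → α) (J : ℕ) (hI : I ⊆ D)
    (hf : ∀ a ∈ I, f a ∉ I) :
    pr (fun _ => q) D (fun R => (∀ a ∈ I, (a ∈ symmDiff Γ R ↔ f a ∈ symmDiff Γ R)) ∧
      J ≤ (R ∩ I).card) ≤ q ^ J := by
  classical
  apply pr_cond (fun _ => hq0) (fun _ => hq1) D I hI
  intro F0 hF0
  have hF0' : ∀ x ∈ F0, x ∉ I := fun x hx => (mem_sdiff.1 (hF0 hx)).2
  set A0 : Finset α := I.filter (fun a => ¬ (a ∈ Γ ↔ f a ∈ symmDiff Γ F0)) with hA0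
  have hmem : ∀ A : Finset α, A ⊆ I →
      (∀ a ∈ I, (a ∈ symmDiff Γ (F0 ∪ A) ↔ f a ∈ symmDiff Γ (F0 ∪ A))) → A = A0 := by
    intro A hA h
    ext a
    rw [hA0, mem_filter]
    have key : ∀ a ∈ I, (a ∈ A ↔ ¬ (a ∈ Γ ↔ f a ∈ symmDiff Γ F0)) := by
      intro a ha
      have h1 := h a ha
      have h2 : f a ∉ A := fun hfa => hf a ha (hA hfa)
      have h3 : a ∉ F0 := fun h => hF0' a h ha
      simp only [mem_symmDiff, mem_union] at h1 ⊢
      tauto
    constructor
    · intro ha
      exact ⟨hA ha, (key a (hA ha)).1 ha⟩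
    · rintro ⟨ha, h'⟩
      exact (key a ha).2 h'
  by_cases hcard : J ≤ A0.card
  · have hle : pr (fun _ => q) I (fun A => (∀ a ∈ I, (a ∈ symmDiff Γ (F0 ∪ A) ↔
        f a ∈ symmDiff Γ (F0 ∪ A))) ∧ J ≤ ((F0 ∪ A) ∩ I).card) ≤
        ∑ A ∈ ({A0} : Finset (Finset α)), wt (fun _ => q) I A := by
      unfold pr
      apply sum_le_sum_of_subset_of_nonneg
      · intro A hA
        simp only [mem_filter, mem_powerset] at hA
        rw [mem_singleton]
        exact hmem A hA.1 hA.2.1
      · intro A _ _
        exact wt_nonneg (fun _ => hq0) (fun _ => hq1) I A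
    rw [sum_singleton] at hle
    exact hle.trans (wt_const_le hq0 hq1 I A0 J hcard)
  · refine le_trans (pr_mono (fun _ => hq0) (fun _ => hq1) (Q := fun _ => False) ?_) ?_
    · rintro A hA ⟨h1, h2⟩
      apply hcard
      have hA' := hmem A hA h1
      have h3 : (F0 ∪ A) ∩ I = A := by
        ext x
        rw [mem_inter, mem_union]
        constructor
        · rintro ⟨h | h, hx⟩
          · exact absurd hx (hF0' x h)
          · exact h
        · intro h
          exact ⟨Or.inr h, hA h⟩
      rw [h3, hA'] at h2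
      exact h2
    · rw [pr_false]
      positivity

/-- links along a map without fixed points, and many members -/
theorem link_prob (hq0 : 0 ≤ q) (hq1 : q ≤ 1) (D S Γ : Finset α) (f : α → α) (J : ℕ) (hS : S ⊆ D)
    (hf : ∀ a ∈ S, f a ≠ a) :
    pr (fun _ => q) D (fun R => (∀ a ∈ S, (a ∈ symmDiff Γ R ↔ f a ∈ symmDiff Γ R)) ∧
      3 * J ≤ (R ∩ S).card) ≤ 3 * q ^ J := by
  classical
  obtain ⟨c, hc⟩ := three_col f S hf
  let I : Fin 3 → Finset α := fun j => S.filter (fun a => c a = j)
  have hI : ∀ j, I j ⊆ S := fun j => filter_subset _ _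
  have hfI : ∀ j, ∀ a ∈ I j, f a ∉ I j := by
    intro j a ha hfa
    have h1 := mem_filter.1 ha
    have h2 := mem_filter.1 hfa
    exact hc a h1.1 h2.1 (h2.2.trans h1.2.symm)
  refine (pr_mono (fun _ => hq0) (fun _ => hq1) (Q := fun R => ∃ j ∈ (univ : Finset (Fin 3)),
    ((∀ a ∈ I j, (a ∈ symmDiff Γ R ↔ f a ∈ symmDiff Γ R)) ∧ J ≤ (R ∩ I j).card)) ?_).trans
    ((pr_ex (fun _ => hq0) (fun _ => hq1) D univ _).trans ?_)
  · rintro R _ ⟨h1, h2⟩
    by_contra hcon
    push Not at hcon
    have h3 : ∀ j, (R ∩ I j).card < J := fun j =>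
      hcon j (mem_univ _) (fun a ha => h1 a (hI j ha))
    have h4 : R ∩ S = univ.biUnion (fun j => R ∩ I j) := by
      ext x
      simp only [mem_inter, mem_biUnion, mem_univ, true_and, I, mem_filter]
      constructor
      · rintro ⟨h5, h6⟩
        exact ⟨c x, h5, h6, rfl⟩
      · rintro ⟨j, h5, h6, _⟩
        exact ⟨h5, h6⟩
    have h5 : (R ∩ S).card ≤ ∑ j : Fin 3, (R ∩ I j).card := by
      rw [h4]
      exact card_biUnion_le
    rw [Fin.sum_univ_three] at h5
    have a0 := h3 0
    have a1 := h3 1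
    have a2 := h3 2
    omega
  · refine (sum_le_sum fun j _ => link_one hq0 hq1 D (I j) Γ f J ((hI j).trans hS) (hfI j)).trans
      (le_of_eq ?_)
    rw [sum_const, card_univ, Fintype.card_fin, nsmul_eq_mul]
    norm_num

/-- exponential moments -/
theorem exp_moment (D T : Finset α) (hT : T ⊆ D) (l : ℝ) :
    ∑ F ∈ D.powerset, wt (fun _ => q) D F * Real.exp (l * (F ∩ T).card) =
      (1 - q + q * Real.exp l) ^ T.card := by
  classical
  have e1 : ∀ F ∈ D.powerset, wt (fun _ => q) D F * Real.exp (l * (F ∩ T).card) =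
      (∏ e ∈ F, (q * (if e ∈ T then Real.exp l else 1))) * ∏ e ∈ D \ F, (1 - q) := by
    intro F _
    unfold wt
    rw [prod_mul_distrib]
    have : ∏ e ∈ F, (if e ∈ T then Real.exp l else 1) = Real.exp (l * (F ∩ T).card) := by
      rw [prod_ite, prod_const, prod_const_one, mul_one, filter_mem_eq_inter, mul_comm,
        Real.exp_nat_mul]
    rw [this]
    ring
  rw [sum_congr rfl e1, ← prod_add]
  have e2 : ∀ e ∈ D, q * (if e ∈ T then Real.exp l else 1) + (1 - q) =
      if e ∈ T then (1 - q + q * Real.exp l) else 1 := by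
    intro e _
    split_ifs <;> ring
  rw [prod_congr rfl e2, prod_ite, prod_const, prod_const_one, mul_one, filter_mem_eq_inter,
    inter_eq_right.2 hT]

/-- few members -/
theorem lower_tail (hq0 : 0 ≤ q) (hq1 : q ≤ 1) (D T : Finset α) (hT : T ⊆ D) (j : ℕ) :
    pr (fun _ => q) D (fun R => (R ∩ T).card < j) ≤ Real.exp (j - q * T.card / 2) := by
  classical
  have h1 : pr (fun _ => q) D (fun R => (R ∩ T).card < j) ≤
      Real.exp j * ∑ F ∈ D.powerset, wt (fun _ => q) D F * Real.exp ((-1) * (F ∩ T).card) := by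
    unfold pr
    rw [mul_sum, sum_filter]
    apply sum_le_sum
    intro F _
    have hw := wt_nonneg (p := fun _ => q) (fun _ => hq0) (fun _ => hq1) D F
    split_ifs with h
    · have h2 : (1 : ℝ) ≤ Real.exp j * Real.exp ((-1) * (F ∩ T).card) := by
        rw [← Real.exp_add]
        apply Real.one_le_exp
        have : ((F ∩ T).card : ℝ) ≤ j := by exact_mod_cast h.le
        linarith
      calc wt (fun _ => q) D F = wt (fun _ => q) D F * 1 := (mul_one _).symm
        _ ≤ wt (fun _ => q) D F * (Real.exp j * Real.exp ((-1) * (F ∩ T).card)) :=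
            mul_le_mul_of_nonneg_left h2 hw
        _ = _ := by ring
    · positivity
  rw [exp_moment D T hT (-1)] at h1
  refine h1.trans ?_
  have h3 : 1 - q + q * Real.exp (-1) ≤ Real.exp (-(q / 2)) := by
    have h4 : Real.exp (-1) ≤ 1 / 2 := by
      rw [Real.exp_neg, ← one_div]
      apply one_div_le_one_div_of_le (by norm_num)
      have := Real.add_one_le_exp (1 : ℝ)
      linarith
    have h5 := Real.add_one_le_exp (-(q / 2))
    nlinarith [mul_le_mul_of_nonneg_left h4 hq0]
  have h6 : 0 ≤ 1 - q + q * Real.exp (-1) := by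
    have := mul_nonneg hq0 (Real.exp_pos (-1)).le
    linarith
  calc Real.exp j * (1 - q + q * Real.exp (-1)) ^ T.card
      ≤ Real.exp j * Real.exp (-(q / 2)) ^ T.card :=
        mul_le_mul_of_nonneg_left (pow_le_pow_left₀ h6 h3 _) (Real.exp_pos _).le
    _ = Real.exp (j - q * T.card / 2) := by
        rw [← Real.exp_nat_mul, ← Real.exp_add]
        congr 1
        ring

/-- many members -/
theorem upper_tail (hq0 : 0 ≤ q) (hq1 : q ≤ 1) (D T : Finset α) (hT : T ⊆ D) (j : ℕ) :
    pr (fun _ => q) D (fun R => j ≤ (R ∩ T).card) ≤ Real.exp (2 * q * T.card - j) := by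
  classical
  have h1 : pr (fun _ => q) D (fun R => j ≤ (R ∩ T).card) ≤
      Real.exp (-(j : ℝ)) * ∑ F ∈ D.powerset, wt (fun _ => q) D F *
        Real.exp (1 * (F ∩ T).card) := by
    unfold pr
    rw [mul_sum, sum_filter]
    apply sum_le_sum
    intro F _
    have hw := wt_nonneg (p := fun _ => q) (fun _ => hq0) (fun _ => hq1) D F
    split_ifs with h
    · have h2 : (1 : ℝ) ≤ Real.exp (-(j : ℝ)) * Real.exp (1 * (F ∩ T).card) := by
        rw [← Real.exp_add]
        apply Real.one_le_exp
        have : (j : ℝ) ≤ ((F ∩ T).card : ℝ) := by exact_mod_cast h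
        linarith
      calc wt (fun _ => q) D F = wt (fun _ => q) D F * 1 := (mul_one _).symm
        _ ≤ wt (fun _ => q) D F * (Real.exp (-(j : ℝ)) * Real.exp (1 * (F ∩ T).card)) :=
            mul_le_mul_of_nonneg_left h2 hw
        _ = _ := by ring
    · positivity
  rw [exp_moment D T hT 1] at h1
  refine h1.trans ?_
  have h3 : 1 - q + q * Real.exp 1 ≤ Real.exp (2 * q) := by
    have h4 : Real.exp 1 ≤ 3 := by
      have := Real.exp_one_lt_d9
      linarith
    have h5 := Real.add_one_le_exp (2 * q)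
    nlinarith [mul_le_mul_of_nonneg_left h4 hq0]
  have h6 : 0 ≤ 1 - q + q * Real.exp 1 := by
    have := mul_nonneg hq0 (Real.exp_pos 1).le
    linarith
  calc Real.exp (-(j : ℝ)) * (1 - q + q * Real.exp 1) ^ T.card
      ≤ Real.exp (-(j : ℝ)) * Real.exp (2 * q) ^ T.card :=
        mul_le_mul_of_nonneg_left (pow_le_pow_left₀ h6 h3 _) (Real.exp_pos _).le
    _ = Real.exp (2 * q * T.card - j) := by
        rw [← Real.exp_nat_mul, ← Real.exp_add]
        congr 1
        ring

end

end Pool.Agent.J4H85.RP
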